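import Mathlib
import Pool.Agent.L0h39.QA.Num

set_option autoImplicit false

/-! Positive rational numbers of bounded height and linear forms in their logarithms. -/

namespace Pool.Agent.L0h53.NP

open Finset

/-- numerator and denominator of absolute value at most `H` -/
def HtLe (H : ℝ) (a : ℚ) : Prop := (|a.num| : ℝ) ≤ H ∧ (a.den : ℝ) ≤ H

theorem algB_of_eq {H : ℝ} {u v : ℤ} {z : ℂ} (hv : v ≠ 0) (hu : |(u : ℝ)| ≤ H)
    (hvH : |(v : ℝ)| ≤ H) (hz : (v : ℂ) * z = u) : Pool.Agent.L0h39.QA.AlgB 1 H z := by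
  have hH : 0 ≤ H := (abs_nonneg _).trans hu
  refine ⟨Polynomial.C v * Polynomial.X + Polynomial.C (-u), ?_, ?_, ?_, ?_⟩
  · intro h
    have := congrArg (fun P => Polynomial.coeff P 1) h
    rw [Polynomial.coeff_add, Polynomial.coeff_C_mul, Polynomial.coeff_X_one,
      Polynomial.coeff_C_succ] at this
    apply hv
    simpa using this
  · compute_degree
  · intro k
    rw [Polynomial.coeff_add, Polynomial.coeff_C_mul]
    rcases k with _ | _ | k
    · rw [Polynomial.coeff_X_zero, Polynomial.coeff_C_zero]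
      push_cast
      rw [mul_zero, zero_add, abs_neg]
      exact hu
    · rw [Polynomial.coeff_X_one, Polynomial.coeff_C_succ, mul_one, add_zero]
      exact hvH
    · rw [Polynomial.coeff_C_succ, Polynomial.coeff_X_of_ne_one (by omega)]
      simpa using hH
  · rw [map_add, map_mul, Polynomial.aeval_C, Polynomial.aeval_X, Polynomial.aeval_C]
    rw [eq_intCast, eq_intCast, hz]
    push_cast
    ring

theorem HtLe.algB {H : ℝ} {a : ℚ} (h : HtLe H a) : Pool.Agent.L0h39.QA.AlgB 1 H (a : ℂ) := by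
  obtain ⟨h1, h2⟩ := h
  refine algB_of_eq (u := a.num) (v := (a.den : ℤ)) (by exact_mod_cast a.den_nz) h1
    (by rw [abs_of_nonneg (by positivity)]; exact_mod_cast h2) ?_
  have : (a : ℂ) = (a.num : ℂ) / (a.den : ℂ) := by exact_mod_cast (Rat.num_div_den a).symm
  have hd : (a.den : ℂ) ≠ 0 := by exact_mod_cast a.den_nz
  rw [this]
  push_cast
  field_simp

/-- a positive rational number all of whose valuations vanish is one -/
theorem eq_one_of_val {q : ℚ} (hq : 0 < q) (h : ∀ p : ℕ, p.Prime → padicValRat p q = 0) : q = 1 := by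
  have hnum : 0 < q.num := Rat.num_pos.mpr hq
  have hden : q.den = 1 := by
    by_contra hne
    obtain ⟨p, hp, hpd⟩ := Nat.exists_prime_and_dvd hne
    have := Fact.mk hp
    have h1 : ¬ (p : ℤ) ∣ q.num := by
      intro hdvd
      have h2 : p ∣ q.num.natAbs := Int.natCast_dvd.mp hdvd
      have h3 := Nat.dvd_gcd h2 hpd
      rw [q.reduced] at h3
      exact hp.one_lt.ne' (Nat.dvd_one.mp h3)
    have h2 := h p hp
    rw [padicValRat_def, padicValInt.eq_zero_of_not_dvd h1] at h2
    have h3 : 1 ≤ padicValNat p q.den := one_le_padicValNat_of_dvd q.den_nz hpd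
    rw [Nat.cast_zero, zero_sub, neg_eq_zero] at h2
    have h4 : padicValNat p q.den = 0 := by exact_mod_cast h2
    omega
  have hnum1 : q.num.natAbs = 1 := by
    by_contra hne
    obtain ⟨p, hp, hpd⟩ := Nat.exists_prime_and_dvd hne
    have := Fact.mk hp
    have h2 := h p hp
    rw [padicValRat_def, hden] at h2
    simp only [padicValNat_one_right, Nat.cast_zero, sub_zero] at h2
    have h3 : 1 ≤ padicValNat p q.num.natAbs := one_le_padicValNat_of_dvd (by omega) hpd
    unfold padicValInt at h2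
    omega
  have h4 : q.num = 1 := by omega
  rw [← Rat.num_div_den q, h4, hden]; norm_num

theorem val_prod {ι : Type*} (s : Finset ι) (c : ι → ℚ) (hc : ∀ i, 0 < c i) (t : ι → ℤ) (p : ℕ)
    (hp : p.Prime) : padicValRat p (∏ i ∈ s, c i ^ t i) = ∑ i ∈ s, t i * padicValRat p (c i) := by
  have := Fact.mk hp
  classical
  induction s using Finset.induction_on with
  | empty => simp
  | insert i s hi ih =>
    rw [Finset.prod_insert hi, Finset.sum_insert hi, padicValRat.mul, ih, padicValRat.zpow]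
    · exact zpow_ne_zero _ (hc i).ne'
    · exact Finset.prod_ne_zero_iff.mpr fun j _ => zpow_ne_zero _ (hc j).ne'

theorem log_prod {ι : Type*} (s : Finset ι) (c : ι → ℚ) (hc : ∀ i, 0 < c i) (t : ι → ℤ) :
    Real.log ((∏ i ∈ s, c i ^ t i : ℚ) : ℝ) = ∑ i ∈ s, (t i : ℝ) * Real.log (c i) := by
  push_cast
  rw [Real.log_prod]
  · exact Finset.sum_congr rfl fun i _ => Real.log_zpow _ _
  · intro i _
    have : (0 : ℝ) < c i := by exact_mod_cast hc i
    positivity

/-- a linear form in logarithms of positive rationals vanishes if and only if all valuations do -/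
theorem log_zero_iff {ι : Type*} (s : Finset ι) (c : ι → ℚ) (hc : ∀ i, 0 < c i) (t : ι → ℤ) :
    ∑ i ∈ s, (t i : ℝ) * Real.log (c i) = 0 ↔
      ∀ p : ℕ, p.Prime → ∑ i ∈ s, t i * padicValRat p (c i) = 0 := by
  have hpos : 0 < ∏ i ∈ s, c i ^ t i := Finset.prod_pos fun i _ => zpow_pos (hc i) _
  rw [← log_prod s c hc t]
  constructor
  · intro h p hp
    rw [← val_prod s c hc t p hp]
    have hposR : (0 : ℝ) < ((∏ i ∈ s, c i ^ t i : ℚ) : ℝ) := by exact_mod_cast hpos
    have h1 : ((∏ i ∈ s, c i ^ t i : ℚ) : ℝ) = 1 := by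
      rcases Real.log_eq_zero.mp h with h2 | h2 | h2
      · exact absurd h2 hposR.ne'
      · exact h2
      · linarith
    have h2 : (∏ i ∈ s, c i ^ t i : ℚ) = 1 := by exact_mod_cast h1
    rw [h2, padicValRat.one]
  · intro h
    have h1 : (∏ i ∈ s, c i ^ t i : ℚ) = 1 := by
      apply eq_one_of_val hpos
      intro p hp
      rw [val_prod s c hc t p hp, h p hp]
    rw [h1]; simp

/-- the valuations of a rational number of bounded height -/
theorem val_le {H : ℝ} {a : ℚ} (ha : 0 < a) (h : HtLe H a) (p : ℕ) (hp : p.Prime) :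
    |(padicValRat p a : ℝ)| ≤ 2 * Real.log H := by
  have := Fact.mk hp
  obtain ⟨h1, h2⟩ := h
  have hlog2 : (1 : ℝ) / 2 < Real.log 2 := by
    have := Real.log_two_gt_d9
    linarith
  have key : ∀ n : ℕ, n ≠ 0 → (n : ℝ) ≤ H → (padicValNat p n : ℝ) ≤ 2 * Real.log H := by
    intro n hn hnH
    have h3 : p ^ padicValNat p n ≤ n := Nat.le_of_dvd (Nat.pos_of_ne_zero hn) pow_padicValNat_dvd
    have h4 : (2 : ℝ) ^ padicValNat p n ≤ H := by
      calc (2 : ℝ) ^ padicValNat p n ≤ (p : ℝ) ^ padicValNat p n := by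
            apply pow_le_pow_left₀ (by norm_num)
            exact_mod_cast hp.two_le
        _ = ((p ^ padicValNat p n : ℕ) : ℝ) := by push_cast; ring
        _ ≤ n := by exact_mod_cast h3
        _ ≤ H := hnH
    have h5 := Real.log_le_log (by positivity) h4
    rw [Real.log_pow] at h5
    have h6 : (0 : ℝ) ≤ (padicValNat p n : ℝ) := Nat.cast_nonneg _
    nlinarith
  have hnum : 0 < a.num := Rat.num_pos.mpr ha
  have k1 := key a.num.natAbs (by omega) (by
    rw [Nat.cast_natAbs]; push_cast; exact h1)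
  have k2 := key a.den a.den_nz h2
  have e : (padicValRat p a : ℝ) = (padicValNat p a.num.natAbs : ℝ) - (padicValNat p a.den : ℝ) := by
    rw [padicValRat_def]
    unfold padicValInt
    rw [Int.cast_sub, Int.cast_natCast, Int.cast_natCast]
  rw [e, abs_le]
  have z1 : (0 : ℝ) ≤ (padicValNat p a.num.natAbs : ℝ) := Nat.cast_nonneg _
  have z2 : (0 : ℝ) ≤ (padicValNat p a.den : ℝ) := Nat.cast_nonneg _
  constructor <;> linarith

/-- nonzero linear forms in logarithms with small integer coefficients -/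
theorem linform_lower {ι : Type*} (s : Finset ι) (c : ι → ℚ) (hc : ∀ i, 0 < c i) (t : ι → ℤ)
    {H : ℝ} (hH : 1 ≤ H) (hcH : ∀ i, HtLe H (c i)) (T : ℝ) (hT : ∑ i ∈ s, |(t i : ℝ)| ≤ T)
    (h0 : ∑ i ∈ s, (t i : ℝ) * Real.log (c i) ≠ 0) :
    Real.exp (-(T * Real.log H)) ≤ |∑ i ∈ s, (t i : ℝ) * Real.log (c i)| := by
  classical
  -- representation of the product by two integers
  have hrep : ∃ A B : ℕ, 0 < A ∧ 0 < B ∧ (A : ℝ) ≤ H ^ (∑ i ∈ s, |(t i : ℝ)|) ∧
      (B : ℝ) ≤ H ^ (∑ i ∈ s, |(t i : ℝ)|) ∧ (∏ i ∈ s, c i ^ t i : ℚ) = A / B := by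
    have one : ∀ i, ∃ A B : ℕ, 0 < A ∧ 0 < B ∧ (A : ℝ) ≤ H ^ |(t i : ℝ)| ∧
        (B : ℝ) ≤ H ^ |(t i : ℝ)| ∧ c i ^ t i = A / B := by
      intro i
      obtain ⟨h1, h2⟩ := hcH i
      have hnum : 0 < (c i).num := Rat.num_pos.mpr (hc i)
      have hn : ((c i).num.natAbs : ℝ) ≤ H := by
        rw [Nat.cast_natAbs]; push_cast; exact h1
      have hci : c i = ((c i).num.natAbs : ℚ) / ((c i).den : ℚ) := by
        have e1 : (((c i).num.natAbs : ℕ) : ℚ) = ((c i).num : ℚ) := by
          have : (((c i).num.natAbs : ℕ) : ℤ) = (c i).num := by omega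
          calc (((c i).num.natAbs : ℕ) : ℚ) = ((((c i).num.natAbs : ℕ) : ℤ) : ℚ) := by
                rw [Int.cast_natCast]
            _ = ((c i).num : ℚ) := by rw [this]
        rw [e1]
        exact (Rat.num_div_den (c i)).symm
      rcases le_or_gt 0 (t i) with ht | ht
      · obtain ⟨k, hk⟩ := Int.eq_ofNat_of_zero_le ht
        refine ⟨(c i).num.natAbs ^ k, (c i).den ^ k, Nat.pow_pos (by omega),
          Nat.pow_pos (c i).pos, ?_, ?_, ?_⟩
        · rw [hk]; push_cast
          rw [abs_of_nonneg (by positivity), Real.rpow_natCast]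
          exact pow_le_pow_left₀ (Nat.cast_nonneg _) hn _
        · rw [hk]; push_cast
          rw [abs_of_nonneg (by positivity), Real.rpow_natCast]
          exact pow_le_pow_left₀ (Nat.cast_nonneg _) h2 _
        · rw [hk]
          conv_lhs => rw [hci]
          push_cast
          rw [zpow_natCast, div_pow]
      · obtain ⟨k, hk⟩ := Int.eq_ofNat_of_zero_le (show 0 ≤ -t i by omega)
        have hk' : t i = -(k : ℤ) := by omega
        refine ⟨(c i).den ^ k, (c i).num.natAbs ^ k, Nat.pow_pos (c i).pos,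
          Nat.pow_pos (by omega), ?_, ?_, ?_⟩
        · rw [hk']; push_cast
          rw [abs_neg, abs_of_nonneg (by positivity), Real.rpow_natCast]
          exact pow_le_pow_left₀ (Nat.cast_nonneg _) h2 _
        · rw [hk']; push_cast
          rw [abs_neg, abs_of_nonneg (by positivity), Real.rpow_natCast]
          exact pow_le_pow_left₀ (Nat.cast_nonneg _) hn _
        · rw [hk']
          conv_lhs => rw [hci]
          push_cast
          rw [zpow_neg, zpow_natCast, div_pow, inv_div]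
    choose A B hA hB hAH hBH hAB using one
    refine ⟨∏ i ∈ s, A i, ∏ i ∈ s, B i, Finset.prod_pos fun i _ => hA i,
      Finset.prod_pos fun i _ => hB i, ?_, ?_, ?_⟩
    · push_cast
      rw [Real.rpow_sum_of_pos (show (0 : ℝ) < H by linarith)]
      exact Finset.prod_le_prod (fun i _ => Nat.cast_nonneg _) fun i _ => hAH i
    · push_cast
      rw [Real.rpow_sum_of_pos (show (0 : ℝ) < H by linarith)]
      exact Finset.prod_le_prod (fun i _ => Nat.cast_nonneg _) fun i _ => hBH i
    · push_cast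
      rw [← Finset.prod_div_distrib]
      exact Finset.prod_congr rfl fun i _ => hAB i
  obtain ⟨A, B, hA, hB, hAH, hBH, hAB⟩ := hrep
  rw [← log_prod s c hc t, hAB] at h0 ⊢
  have hAR : (0 : ℝ) < A := by exact_mod_cast hA
  have hBR : (0 : ℝ) < B := by exact_mod_cast hB
  have hne : A ≠ B := by
    rintro rfl
    apply h0
    push_cast
    rw [div_self hAR.ne', Real.log_one]
  have hM : H ^ (∑ i ∈ s, |(t i : ℝ)|) ≤ Real.exp (T * Real.log H) := by
    rw [Real.rpow_def_of_pos (by linarith)]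
    apply Real.exp_le_exp.mpr
    have := Real.log_nonneg hH
    nlinarith
  -- the estimate
  have main : ∀ A B : ℕ, 0 < A → 0 < B → A < B → (B : ℝ) ≤ Real.exp (T * Real.log H) →
      Real.exp (-(T * Real.log H)) ≤ |Real.log ((A : ℝ) / B)| := by
    intro A B hA hB hlt hBH
    have hAR : (0 : ℝ) < A := by exact_mod_cast hA
    have hBR : (0 : ℝ) < B := by exact_mod_cast hB
    have h1 : Real.log ((A : ℝ) / B) ≤ (A : ℝ) / B - 1 := Real.log_le_sub_one_of_pos (by positivity)
    have h2 : (A : ℝ) + 1 ≤ B := by exact_mod_cast hlt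
    have h3 : (A : ℝ) / B - 1 ≤ -(1 / B) := by
      rw [div_sub_one hBR.ne', ← neg_div, div_le_div_iff_of_pos_right hBR]
      linarith
    have h4 : Real.exp (-(T * Real.log H)) ≤ 1 / B := by
      rw [Real.exp_neg, one_div]
      exact inv_anti₀ hBR hBH
    have h5 : 0 < 1 / (B : ℝ) := by positivity
    rw [abs_of_neg (by linarith)]
    linarith
  push_cast
  rcases lt_or_gt_of_ne hne with h | h
  · exact main A B hA hB h (hBH.trans hM)
  · have := main B A hB hA h (hAH.trans hM)
    rw [← inv_div, Real.log_inv, abs_neg] at this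
    exact this

/-- closeness of exponentials gives closeness of the exponents -/
theorem log_close {x r δ m : ℝ} (hm : 0 < m) (hx : m ≤ Real.exp x) (hr : m ≤ r)
    (h : |Real.exp x - r| ≤ δ) : |x - Real.log r| ≤ δ / m := by
  have hr0 : 0 < r := by linarith
  have e : r = Real.exp (Real.log r) := (Real.exp_log hr0).symm
  rw [le_div_iff₀ hm]
  refine le_trans ?_ h
  rw [abs_le] at *
  have h1 := Real.add_one_le_exp (x - Real.log r)
  have h2 := Real.add_one_le_exp (Real.log r - x)
  have h3 : Real.exp (x - Real.log r) * r = Real.exp x := by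
    nth_rewrite 2 [e]
    rw [← Real.exp_add]; ring_nf
  have h4 : Real.exp (Real.log r - x) * Real.exp x = r := by
    rw [← Real.exp_add]; ring_nf
    exact Real.exp_log hr0
  rcases le_total 0 (x - Real.log r) with h0 | h0
  · rw [abs_of_nonneg h0]
    have : (x - Real.log r) * r ≤ Real.exp x - r := by nlinarith
    have h6 : (x - Real.log r) * m ≤ (x - Real.log r) * r := mul_le_mul_of_nonneg_left hr h0
    exact (h6.trans this).trans (le_abs_self _)
  · rw [abs_of_nonpos h0]
    have : (-(x - Real.log r)) * Real.exp x ≤ r - Real.exp x := by nlinarith [Real.exp_pos x]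
    have h6 : (-(x - Real.log r)) * m ≤ (-(x - Real.log r)) * Real.exp x :=
      mul_le_mul_of_nonneg_left hx (by linarith)
    have h7 : r - Real.exp x ≤ |Real.exp x - r| := by
      rw [abs_sub_comm]; exact le_abs_self _
    exact (h6.trans this).trans h7

/-- the choice of the parameter -/
theorem choose_nU (a k : ℕ) (ha : 1 ≤ a) (κ' : ℝ) (hκ' : (k : ℝ) / a ≤ κ') (C1 : ℝ)
    (hC1 : 0 < C1) (n0 : ℕ) (K : ℝ) (hK : 0 ≤ K) :
    ∃ C : ℝ, 0 < C ∧ ∀ H : ℝ, 3 ≤ H → ∃ n : ℕ, n0 ≤ n ∧ 1 ≤ n ∧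
      C1 * (K * Real.log H) ≤ (n : ℝ) ^ a ∧
      Real.exp (-(C * Real.log H ^ κ')) ≤ (1 / 4) ^ (n ^ k) := by
  have ha0 : (0 : ℝ) < a := by exact_mod_cast ha
  have hane : (a : ℝ) ≠ 0 := ha0.ne'
  set C2 : ℝ := n0 + 2 + (C1 * K) ^ (1 / (a : ℝ)) with hC2
  have hB0 : 0 ≤ C1 * K := by positivity
  have hC2pos : 0 < C2 := by positivity
  refine ⟨Real.log 4 * C2 ^ k, by have := Real.log_pos (x := 4) (by norm_num); positivity,
    ?_⟩
  intro H hH
  have hlog : 1 ≤ Real.log H := by
    rw [Real.le_log_iff_exp_le (by linarith)]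
    have := Real.exp_one_lt_d9
    linarith
  set L := Real.log H with hL
  have hL0 : 0 < L := by linarith
  set n : ℕ := n0 + 1 + ⌈(C1 * (K * L)) ^ (1 / (a : ℝ))⌉₊ with hn
  have hpos : 0 ≤ C1 * (K * L) := by positivity
  refine ⟨n, by omega, by omega, ?_, ?_⟩
  · have h1 : (C1 * (K * L)) ^ (1 / (a : ℝ)) ≤ n := by
      refine (Nat.le_ceil _).trans ?_
      rw [hn]; push_cast
      have : (0 : ℝ) ≤ n0 := Nat.cast_nonneg _
      linarith
    calc C1 * (K * L) = ((C1 * (K * L)) ^ (1 / (a : ℝ))) ^ a := by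
          rw [← Real.rpow_natCast, ← Real.rpow_mul hpos, one_div, inv_mul_cancel₀ hane,
            Real.rpow_one]
      _ ≤ (n : ℝ) ^ a := pow_le_pow_left₀ (Real.rpow_nonneg hpos _) h1 _
  · have hLa : 1 ≤ L ^ (1 / (a : ℝ)) := Real.one_le_rpow hlog (by positivity)
    have h1 : (n : ℝ) ≤ C2 * L ^ (1 / (a : ℝ)) := by
      have h2 : (C1 * (K * L)) ^ (1 / (a : ℝ)) = (C1 * K) ^ (1 / (a : ℝ)) *
          L ^ (1 / (a : ℝ)) := by
        rw [← Real.mul_rpow hB0 hL0.le, mul_assoc]
      have h3 : (⌈(C1 * (K * L)) ^ (1 / (a : ℝ))⌉₊ : ℝ) ≤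
          (C1 * (K * L)) ^ (1 / (a : ℝ)) + 1 :=
        (Nat.ceil_lt_add_one (Real.rpow_nonneg hpos _)).le
      rw [hn, hC2]
      push_cast
      have h4 : (0 : ℝ) ≤ n0 + 2 := by positivity
      nlinarith
    have h2 : ((n ^ k : ℕ) : ℝ) ≤ C2 ^ k * L ^ κ' := by
      push_cast
      calc (n : ℝ) ^ k ≤ (C2 * L ^ (1 / (a : ℝ))) ^ k :=
            pow_le_pow_left₀ (Nat.cast_nonneg _) h1 _
        _ = C2 ^ k * L ^ ((k : ℝ) / a) := by
            rw [mul_pow]
            congr 1
            rw [← Real.rpow_natCast, ← Real.rpow_mul hL0.le]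
            congr 1
            field_simp
        _ ≤ _ := by
            apply mul_le_mul_of_nonneg_left _ (by positivity)
            exact Real.rpow_le_rpow_of_exponent_le hlog hκ'
    have h3 : ((1 : ℝ) / 4) ^ (n ^ k) =
        Real.exp (-(Real.log 4 * ((n ^ k : ℕ) : ℝ))) := by
      rw [← Real.rpow_natCast, Real.rpow_def_of_pos (by norm_num)]
      congr 1
      rw [one_div, Real.log_inv]; ring
    rw [h3]
    apply Real.exp_le_exp.mpr
    have h4 : 0 < Real.log 4 := Real.log_pos (by norm_num)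
    nlinarith

end Pool.Agent.L0h53.NP
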