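import Mathlib
import Pool.Agent.L0h53.NP.Base

set_option autoImplicit false

/-! Multiplicative relations between positive rational numbers. -/

namespace Pool.Agent.L0h53.NP

open Finset

theorem eq_of_log {a b : ℚ} (ha : 0 < a) (hb : 0 < b) (h : Real.log a = Real.log b) : a = b := by
  have ha' : (0 : ℝ) < a := by exact_mod_cast ha
  have hb' : (0 : ℝ) < b := by exact_mod_cast hb
  have := Real.log_injOn_pos (Set.mem_Ioi.mpr ha') (Set.mem_Ioi.mpr hb') h
  exact_mod_cast this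

theorem eq_one_of_log {a : ℚ} (ha : 0 < a) (h : Real.log a = 0) : a = 1 :=
  eq_of_log ha one_pos (by rw [h]; simp)

/-- two terms -/
theorem log2_iff {c0 c1 : ℚ} (h0 : 0 < c0) (h1 : 0 < c1) (t0 t1 : ℤ) :
    (t0 : ℝ) * Real.log c0 + t1 * Real.log c1 = 0 ↔
      ∀ p : ℕ, p.Prime → t0 * padicValRat p c0 + t1 * padicValRat p c1 = 0 := by
  have h := log_zero_iff (Finset.univ : Finset (Fin 2)) ![c0, c1] (by
    intro i; fin_cases i
    · exact h0
    · exact h1) ![t0, t1]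
  simpa [Fin.sum_univ_two] using h

theorem exists_val {a : ℚ} (ha : 0 < a) (h : a ≠ 1) : ∃ p : ℕ, p.Prime ∧ padicValRat p a ≠ 0 := by
  by_contra hcon
  push Not at hcon
  exact h (eq_one_of_val ha hcon)

/-- a multiplicative relation can be chosen with small exponents -/
theorem small_rel {H : ℝ} (hH : 3 ≤ H) {r0 r1 : ℚ} (h0 : 0 < r0) (h1 : 0 < r1) (h0H : HtLe H r0)
    (h1H : HtLe H r1) {s1 s2 : ℤ} (hs : s1 ≠ 0 ∨ s2 ≠ 0)
    (h : (s1 : ℝ) * Real.log r0 + s2 * Real.log r1 = 0) :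
    ∃ t1 t2 : ℤ, (t1 ≠ 0 ∨ t2 ≠ 0) ∧ |(t1 : ℝ)| ≤ 2 * Real.log H ∧ |(t2 : ℝ)| ≤ 2 * Real.log H ∧
      (t1 : ℝ) * Real.log r0 + t2 * Real.log r1 = 0 := by
  have hlog : 1 ≤ Real.log H := by
    rw [Real.le_log_iff_exp_le (by linarith)]
    have := Real.exp_one_lt_d9
    linarith
  by_cases hr : r0 = 1
  · refine ⟨1, 0, Or.inl one_ne_zero, ?_, ?_, ?_⟩
    · simp; linarith
    · simp; linarith
    · rw [hr]; simp
  · obtain ⟨p, hp, hv⟩ := exists_val h0 hr
    have hval := (log2_iff h0 h1 s1 s2).mp h p hp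
    have hs2 : s2 ≠ 0 := by
      rintro rfl
      rw [zero_mul, add_zero] at hval
      have := (mul_eq_zero.mp hval).resolve_right hv
      rcases hs with hs | hs
      · exact hs this
      · exact hs rfl
    refine ⟨padicValRat p r1, -padicValRat p r0, Or.inr (by omega), val_le h1 h1H p hp, ?_, ?_⟩
    · push_cast
      rw [abs_neg]
      exact val_le h0 h0H p hp
    · have h2 : (s2 : ℝ) * ((padicValRat p r1 : ℝ) * Real.log r0 +
          ((-padicValRat p r0 : ℤ) : ℝ) * Real.log r1) = 0 := by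
        have hvalR : (s1 : ℝ) * padicValRat p r0 + s2 * padicValRat p r1 = 0 := by
          exact_mod_cast hval
        push_cast
        linear_combination Real.log r0 * hvalR - (padicValRat p r0 : ℝ) * h
      exact (mul_eq_zero.mp h2).resolve_left (by exact_mod_cast hs2)

/-- pairwise dependent positive rational numbers are powers of one number -/
theorem pow_structure (S : Set ℚ) (hpos : ∀ a ∈ S, 0 < a)
    (hdep : ∀ a ∈ S, ∀ b ∈ S, ∃ s1 s2 : ℤ, (s1 ≠ 0 ∨ s2 ≠ 0) ∧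
      (s1 : ℝ) * Real.log a + s2 * Real.log b = 0) :
    ∃ m : ℚ, 0 < m ∧ ∀ a ∈ S, ∃ k : ℤ, a = m ^ k := by
  by_cases hall : ∀ a ∈ S, a = 1
  · exact ⟨1, one_pos, fun a ha => ⟨0, by rw [hall a ha]; simp⟩⟩
  push Not at hall
  obtain ⟨a, haS, ha1⟩ := hall
  have ha := hpos a haS
  set P : Set ℕ := {k | 0 < k ∧ ∃ m : ℚ, 0 < m ∧ m ^ k = a} with hP
  have hne : P.Nonempty := ⟨1, one_pos, a, ha, pow_one a⟩
  obtain ⟨p, hp, hv⟩ := exists_val ha ha1
  have hfact := Fact.mk hp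
  have hbdd : BddAbove P := by
    refine ⟨(padicValRat p a).natAbs, ?_⟩
    rintro k ⟨hk, m, hm, hmk⟩
    rw [← hmk, padicValRat.pow, Int.natAbs_mul, Int.natAbs_natCast]
    apply Nat.le_mul_of_pos_right
    rw [Nat.pos_iff_ne_zero]
    intro h0
    apply hv
    rw [← hmk, padicValRat.pow, Int.natAbs_eq_zero.mp h0, mul_zero]
  obtain ⟨hk, m, hm, hmk⟩ := Nat.sSup_mem hne hbdd
  set k := sSup P with hkdef
  have hmax : ∀ j ∈ P, j ≤ k := fun j hj => le_csSup hbdd hj
  have hloga : Real.log a = k * Real.log m := by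
    rw [← hmk]; push_cast; exact Real.log_pow _ _
  have hloga0 : Real.log a ≠ 0 := fun h => ha1 (eq_one_of_log ha h)
  refine ⟨m, hm, fun b hbS => ?_⟩
  have hb := hpos b hbS
  obtain ⟨s1, s2, hs, hrel⟩ := hdep a haS b hbS
  have hs2 : s2 ≠ 0 := by
    rintro rfl
    push_cast at hrel
    rw [zero_mul, add_zero] at hrel
    have := (mul_eq_zero.mp hrel).resolve_right hloga0
    rcases hs with hs | hs
    · exact hs (by exact_mod_cast this)
    · exact hs rfl
  obtain ⟨t, ht⟩ : ∃ t : ℤ, t = -s1 * k := ⟨_, rfl⟩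
  have hrel2 : (s2 : ℝ) * Real.log b = t * Real.log m := by
    rw [ht]; push_cast
    rw [hloga] at hrel
    linear_combination hrel
  have hg0 : 0 < Int.gcd s2 t := Int.gcd_pos_of_ne_zero_left _ hs2
  obtain ⟨s', t', hco, es, et⟩ : ∃ s' t' : ℤ, IsCoprime s' t' ∧ s2 = s' * (Int.gcd s2 t : ℤ) ∧
      t = t' * (Int.gcd s2 t : ℤ) := by
    obtain ⟨s', t', h1, h2, h3⟩ := Int.exists_gcd_one hg0
    exact ⟨s', t', Int.isCoprime_iff_gcd_eq_one.2 h1, h2, h3⟩
  have hrel3 : (s' : ℝ) * Real.log b = t' * Real.log m := by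
    have hgR : ((Int.gcd s2 t : ℤ) : ℝ) ≠ 0 := by
      have : (Int.gcd s2 t : ℤ) ≠ 0 := by exact_mod_cast hg0.ne'
      exact_mod_cast this
    have h1 : ((s2 : ℤ) : ℝ) = (s' : ℝ) * ((Int.gcd s2 t : ℤ) : ℝ) := by exact_mod_cast es
    have h2 : ((t : ℤ) : ℝ) = (t' : ℝ) * ((Int.gcd s2 t : ℤ) : ℝ) := by exact_mod_cast et
    have h3 : ((Int.gcd s2 t : ℤ) : ℝ) * ((s' : ℝ) * Real.log b - t' * Real.log m) = 0 := by
      rw [h1, h2] at hrel2
      linear_combination hrel2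
    have := (mul_eq_zero.mp h3).resolve_left hgR
    linarith
  obtain ⟨x, y, hxy⟩ := hco
  have hxyR : (x : ℝ) * s' + y * t' = 1 := by exact_mod_cast hxy
  have hmR : (0 : ℝ) < m := by exact_mod_cast hm
  have hbR : (0 : ℝ) < b := by exact_mod_cast hb
  set m' : ℚ := m ^ x * b ^ y with hm'
  have hm'0 : 0 < m' := mul_pos (zpow_pos hm _) (zpow_pos hb _)
  have hlogm' : Real.log m' = x * Real.log m + y * Real.log b := by
    rw [hm']; push_cast
    rw [Real.log_mul (by positivity) (by positivity), Real.log_zpow, Real.log_zpow]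
  have e1 : Real.log m = s' * Real.log m' := by
    rw [hlogm']
    linear_combination (-Real.log m) * hxyR - (y : ℝ) * hrel3
  have e2 : Real.log b = t' * Real.log m' := by
    rw [hlogm']
    linear_combination (-Real.log b) * hxyR + (x : ℝ) * hrel3
  have hs'0 : s' ≠ 0 := by
    rintro rfl
    apply hs2
    rw [es, zero_mul]
  have hloga' : Real.log a = (k * s') * Real.log m' := by rw [hloga, e1]; ring
  rcases lt_or_gt_of_ne hs'0 with hneg | hpos'
  · -- negative exponent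
    obtain ⟨j, hj⟩ : ∃ j : ℕ, (j : ℤ) = -s' := ⟨s'.natAbs, by omega⟩
    have hjR : (j : ℝ) = -s' := by exact_mod_cast hj
    have hmem : k * j ∈ P := by
      refine ⟨Nat.mul_pos hk (by omega), m'⁻¹, inv_pos.mpr hm'0, ?_⟩
      apply eq_of_log (by positivity) ha
      push_cast
      rw [Real.log_pow, Real.log_inv, hloga']
      push_cast
      rw [hjR]; ring
    have h1 := hmax _ hmem
    have hj1 : j = 1 := by
      have h2 : j ≤ 1 := by
        by_contra hc
        have : k * 2 ≤ k * j := Nat.mul_le_mul_left _ (by omega)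
        omega
      omega
    refine ⟨-t', ?_⟩
    apply eq_of_log hb (zpow_pos hm _)
    push_cast
    rw [Real.log_zpow, e2, e1]
    have : s' = -1 := by omega
    rw [this]; push_cast; ring
  · obtain ⟨j, hj⟩ : ∃ j : ℕ, (j : ℤ) = s' := ⟨s'.natAbs, by omega⟩
    have hjR : (j : ℝ) = s' := by exact_mod_cast hj
    have hmem : k * j ∈ P := by
      refine ⟨Nat.mul_pos hk (by omega), m', hm'0, ?_⟩
      apply eq_of_log (by positivity) ha
      push_cast
      rw [Real.log_pow, hloga']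
      push_cast
      rw [hjR]
    have h1 := hmax _ hmem
    have hj1 : j = 1 := by
      have h2 : j ≤ 1 := by
        by_contra hc
        have : k * 2 ≤ k * j := Nat.mul_le_mul_left _ (by omega)
        omega
      omega
    refine ⟨t', ?_⟩
    apply eq_of_log hb (zpow_pos hm _)
    push_cast
    rw [Real.log_zpow, e2, e1]
    have : s' = 1 := by omega
    rw [this]; push_cast; ring

/-- the integers among the powers of one rational number are powers of one integer -/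
theorem nat_structure {m : ℚ} (hm : 0 < m) (S : Set ℕ) (hS : ∀ n ∈ S, 2 ≤ n ∧ ∃ k : ℤ, (n : ℚ) = m ^ k) :
    ∃ M : ℕ, 2 ≤ M ∧ ∀ n ∈ S, ∃ k : ℕ, 1 ≤ k ∧ n = M ^ k := by
  by_cases hne : S.Nonempty
  swap
  · rw [Set.not_nonempty_iff_eq_empty] at hne
    exact ⟨2, le_rfl, fun n hn => by rw [hne] at hn; exact absurd hn (Set.notMem_empty n)⟩
  -- replace `m` by a number greater than one
  obtain ⟨m', hm', hS'⟩ : ∃ m' : ℚ, 1 < m' ∧ ∀ n ∈ S, ∃ k : ℕ, 1 ≤ k ∧ (n : ℚ) = m' ^ k := by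
    have key : ∀ m : ℚ, 1 < m → (∀ n ∈ S, 2 ≤ n ∧ ∃ k : ℤ, (n : ℚ) = m ^ k) →
        ∃ m' : ℚ, 1 < m' ∧ ∀ n ∈ S, ∃ k : ℕ, 1 ≤ k ∧ (n : ℚ) = m' ^ k := by
      intro m hm1 h
      refine ⟨m, hm1, fun n hn => ?_⟩
      obtain ⟨h2, k, hk⟩ := h n hn
      have hkpos : 0 < k := by
        by_contra hc
        have h3 : m ^ k ≤ 1 := zpow_le_one_of_nonpos₀ hm1.le (by omega)
        rw [← hk] at h3
        have h4 : (2 : ℚ) ≤ n := by exact_mod_cast h2
        linarith
      refine ⟨k.toNat, by omega, ?_⟩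
      rw [hk, ← zpow_natCast]
      congr 1
      omega
    rcases lt_trichotomy m 1 with h | h | h
    · refine key m⁻¹ ((one_lt_inv₀ hm).mpr h) fun n hn => ?_
      obtain ⟨h2, k, hk⟩ := hS n hn
      exact ⟨h2, -k, by rw [hk, inv_zpow', neg_neg]⟩
    · exfalso
      obtain ⟨n, hn⟩ := hne
      obtain ⟨h2, k, hk⟩ := hS n hn
      rw [h, one_zpow] at hk
      have : (2 : ℚ) ≤ n := by exact_mod_cast h2
      linarith
    · exact key m h hS
  obtain ⟨n, hn⟩ := hne
  obtain ⟨k, hk1, hk⟩ := hS' n hn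
  have hden : m'.den = 1 := by
    have h1 : ((n : ℚ)).den = m'.den ^ k := by rw [hk, Rat.den_pow]
    rw [Rat.den_natCast] at h1
    exact (Nat.pow_eq_one.mp h1.symm).resolve_right (by omega)
  obtain ⟨M, hM⟩ : ∃ M : ℕ, (M : ℚ) = m' := by
    refine ⟨m'.num.natAbs, ?_⟩
    have hnum : 0 < m'.num := Rat.num_pos.mpr (by linarith)
    have h1 : ((m'.num.natAbs : ℕ) : ℤ) = m'.num := by omega
    calc ((m'.num.natAbs : ℕ) : ℚ) = (((m'.num.natAbs : ℕ) : ℤ) : ℚ) := by rw [Int.cast_natCast]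
      _ = (m'.num : ℚ) := by rw [h1]
      _ = m' := Rat.coe_int_num_of_den_eq_one hden
  refine ⟨M, ?_, fun n hn => ?_⟩
  · have : (1 : ℚ) < M := by rw [hM]; exact hm'
    exact_mod_cast this
  · obtain ⟨k, hk1, hk⟩ := hS' n hn
    refine ⟨k, hk1, ?_⟩
    rw [← hM] at hk
    exact_mod_cast hk

/-- the number of powers of `M` up to `H` -/
theorem ncard_powers {M : ℕ} (hM : 2 ≤ M) (S : Set ℕ) {H : ℝ} (hH : 3 ≤ H)
    (hS : ∀ n ∈ S, (n : ℝ) ≤ H ∧ ∃ k : ℕ, 1 ≤ k ∧ n = M ^ k) :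
    (S.ncard : ℝ) ≤ Real.log H / Real.log 2 := by
  classical
  have hlog2 : 0 < Real.log 2 := Real.log_pos (by norm_num)
  have hlogH : 0 ≤ Real.log H := Real.log_nonneg (by linarith)
  set N := ⌊Real.log H / Real.log 2⌋₊ with hN
  have hsub : S ⊆ ((Finset.Icc 1 N).image fun k => M ^ k : Finset ℕ) := by
    intro n hn
    obtain ⟨h1, k, hk1, hk⟩ := hS n hn
    rw [Finset.coe_image]
    refine ⟨k, ?_, hk.symm⟩
    rw [Finset.coe_Icc]
    refine ⟨hk1, ?_⟩
    rw [hN]
    apply Nat.le_floor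
    rw [le_div_iff₀ hlog2]
    have h2 : (2 : ℝ) ^ k ≤ H := by
      calc (2 : ℝ) ^ k ≤ (M : ℝ) ^ k := pow_le_pow_left₀ (by norm_num) (by exact_mod_cast hM) k
        _ = (n : ℝ) := by rw [hk]; push_cast; ring
        _ ≤ H := h1
    have h3 := Real.log_le_log (by positivity) h2
    rwa [Real.log_pow] at h3
  have h1 : S.ncard ≤ N := by
    calc S.ncard ≤ ((((Finset.Icc 1 N).image fun k => M ^ k : Finset ℕ)) : Set ℕ).ncard :=
          Set.ncard_le_ncard hsub (Finset.finite_toSet _)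
      _ = ((Finset.Icc 1 N).image fun k => M ^ k).card := Set.ncard_coe_finset _
      _ ≤ (Finset.Icc 1 N).card := Finset.card_image_le
      _ = N := by rw [Nat.card_Icc]; omega
  have h2 : (N : ℝ) ≤ Real.log H / Real.log 2 := Nat.floor_le (by positivity)
  have h3 : (S.ncard : ℝ) ≤ N := by exact_mod_cast h1
  linarith

end Pool.Agent.L0h53.NP
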