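import Mathlib
import Pool.Agent.L0h39.QA.Grow

set_option autoImplicit false

/-! The growth estimate, uniform in the size of the points: the square of the size may be
as large as the height parameter. -/

namespace Pool.Agent.L0h53.NP

open Finset Pool.Agent.H301R2.TR Pool.Agent.L0h39.QA

theorem E1_scale (N : ℕ) (A Z Y : ℝ) (_hZ : 1 ≤ Z) (h : Z ≤ Y) (hA : 0 ≤ A) :
    E1 N (A * Z) ≤ E1 N A * Real.exp (6 * A * Y) := by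
  unfold E1
  have h1 : Real.exp (6 * (A * Z)) ≤ Real.exp (6 * A) * Real.exp (6 * A * Y) := by
    rw [← Real.exp_add]
    apply Real.exp_le_exp.mpr
    nlinarith [mul_le_mul_of_nonneg_left h hA, mul_nonneg hA (by linarith : (0:ℝ) ≤ Z)]
  calc (N.factorial : ℝ) * Real.exp (6 * (A * Z))
      ≤ (N.factorial : ℝ) * (Real.exp (6 * A) * Real.exp (6 * A * Y)) := by gcongr
    _ = _ := by ring

/-- **The growth estimate, uniform version.** -/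
theorem growthU (w b l r κ μ σ τ a c D0 : ℕ) (g C0 : ℝ) (hg : 0 ≤ g) (hC0 : 0 ≤ C0)
    (hb : 1 ≤ b) (hl : 1 ≤ l)
    (hκ : μ + σ = κ) (hτ : τ + 1 = κ + a) (ha : 1 ≤ a) :
    ∃ C1 : ℝ, 0 < C1 ∧ ∃ n0 : ℕ, ∀ n ≥ n0, 1 ≤ n → ∀ (Λ R ε Cx : ℝ) (d D : ℕ),
      C1 * Λ ≤ (n : ℝ) ^ a →
      1 ≤ Λ → 1 ≤ R → R ≤ Real.exp Λ → 1 ≤ d → (d : ℝ) ≤ Real.exp Λ → 1 ≤ D → D ≤ D0 →
      0 ≤ ε → ε ≤ (1 / 4) ^ (n ^ (κ + a)) → 1 ≤ Cx → Cx ^ 2 ≤ C0 * Λ →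
      (Bd w b l g R (n ^ κ) (n ^ μ) (c * n ^ τ) (c * n ^ σ) *
        ((w * ((n ^ κ : ℕ) : ℝ) + b * ((n ^ μ : ℕ) : ℝ)) * (l * ((c * n ^ σ : ℕ) : ℝ) * ε)) ≤
          (1 / 2) ^ (n ^ (κ + a))) ∧
      (2 * (((n ^ κ + 1) ^ w * (n ^ μ + 1) ^ b : ℕ) : ℝ) *
      (((r + w : ℕ) + 2) * (2 * E1 (n ^ κ + c * n ^ τ)
        (((1 + b) * Cx) * ((1 + l) * Cx) * (((n ^ μ : ℕ) : ℝ) * ((c * n ^ σ : ℕ) : ℝ)))) ^ (r + w))
      * ((d : ℝ) ^ (w * n ^ κ + b * (l * ((c * n ^ σ) * n ^ μ)))) ^ D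
      * ((((n ^ κ + 1) ^ w * (n ^ μ + 1) ^ b : ℕ) : ℝ) *
        Bd w b l g R (n ^ κ) (n ^ μ) (c * n ^ τ) (c * n ^ σ)) ^ D) ^ 2
        < 2 ^ (n ^ (κ + a)) := by
  obtain ⟨C1, hC1, n0, h⟩ := growth w b l r κ μ σ τ a c D0 g 1 hg le_rfl hκ hτ ha
  set B : ℝ := 6 * ((1 + b) * (1 + l)) * C0 * ((r + w : ℕ) : ℝ) with hB
  have hB0 : 0 ≤ B := by rw [hB]; positivity
  refine ⟨C1 * (B + 2), by positivity, n0, ?_⟩
  intro n hn hn1 Λ R ε Cx d D hΛ hΛ1 hR1 hR hd1 hd hD1 hD hε0 hε hCx1 hCx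
  set k : ℕ := ⌈Real.exp (B * Λ)⌉₊ with hk
  have hΛ0 : 0 ≤ Λ := by linarith
  have hk1 : 1 ≤ k := by
    rw [hk, Nat.one_le_ceil_iff]
    exact Real.exp_pos _
  have hke : Real.exp (B * Λ) ≤ (k : ℝ) := Nat.le_ceil _
  have hkexp : (k : ℝ) ≤ Real.exp ((B + 1) * Λ) := by
    have h1 : (k : ℝ) ≤ Real.exp (B * Λ) + 1 := (Nat.ceil_lt_add_one (Real.exp_pos _).le).le
    have h2 : 1 ≤ Real.exp (B * Λ) := Real.one_le_exp (by positivity)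
    have h3 : Real.exp ((B + 1) * Λ) = Real.exp (B * Λ) * Real.exp Λ := by
      rw [← Real.exp_add]; ring_nf
    have h4 : 2 ≤ Real.exp Λ := by
      have := Real.add_one_le_exp Λ
      linarith
    rw [h3]
    nlinarith
  obtain ⟨g1, g2⟩ := h n hn hn1 ((B + 2) * Λ) R ε (d * k) D (by
      calc C1 * ((B + 2) * Λ) = C1 * (B + 2) * Λ := by ring
        _ ≤ _ := hΛ) (by positivity) hR1
    (hR.trans (Real.exp_le_exp.mpr (by nlinarith)))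
    (by exact Nat.succ_le_of_lt (Nat.mul_pos hd1 hk1))
    (by
      push_cast
      calc (d : ℝ) * k ≤ Real.exp Λ * Real.exp ((B + 1) * Λ) := by gcongr
        _ = Real.exp ((B + 2) * Λ) := by rw [← Real.exp_add]; ring_nf)
    hD hε0 hε
  refine ⟨g1, lt_of_le_of_lt ?_ g2⟩
  obtain ⟨m, hm⟩ : ∃ m : ℝ, m = ((n ^ μ : ℕ) : ℝ) * ((c * n ^ σ : ℕ) : ℝ) := ⟨_, rfl⟩
  have hm0 : 0 ≤ m := by rw [hm]; positivity
  obtain ⟨E, hE⟩ : ∃ E : ℕ, E = w * n ^ κ + b * (l * ((c * n ^ σ) * n ^ μ)) := ⟨_, rfl⟩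
  have hmE : m ≤ (E : ℝ) := by
    have h1 : (c * n ^ σ) * n ^ μ ≤ E := by
      rw [hE]
      calc (c * n ^ σ) * n ^ μ ≤ l * ((c * n ^ σ) * n ^ μ) := Nat.le_mul_of_pos_left _ hl
        _ ≤ b * (l * ((c * n ^ σ) * n ^ μ)) := Nat.le_mul_of_pos_left _ hb
        _ ≤ _ := Nat.le_add_left _ _
    have h2 : (((c * n ^ σ) * n ^ μ : ℕ) : ℝ) ≤ (E : ℝ) := by exact_mod_cast h1
    refine le_trans (le_of_eq ?_) h2
    rw [hm]; push_cast; ring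
  obtain ⟨A, hA⟩ : ∃ A : ℝ, A = ((1 + b) * (1 + l) : ℝ) * m := ⟨_, rfl⟩
  have hA0 : 0 ≤ A := by rw [hA]; positivity
  have e1 : ((1 + b) * Cx) * ((1 + l) * Cx) * (((n ^ μ : ℕ) : ℝ) * ((c * n ^ σ : ℕ) : ℝ))
      = A * Cx ^ 2 := by rw [hA, hm]; ring
  have e2 : ((1 + b) * (1 : ℝ)) * ((1 + l) * 1) * (((n ^ μ : ℕ) : ℝ) * ((c * n ^ σ : ℕ) : ℝ))
      = A := by rw [hA, hm]; ring
  rw [e1, e2, ← hE]
  obtain ⟨N, hN⟩ : ∃ N, N = n ^ κ + c * n ^ τ := ⟨_, rfl⟩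
  rw [← hN]
  obtain ⟨J, hJ⟩ : ∃ J : ℝ, J = (((n ^ κ + 1) ^ w * (n ^ μ + 1) ^ b : ℕ) : ℝ) := ⟨_, rfl⟩
  rw [← hJ]
  have hJ0 : 0 ≤ J := by rw [hJ]; positivity
  obtain ⟨BD, hBD⟩ : ∃ B : ℝ, B = Bd w b l g R (n ^ κ) (n ^ μ) (c * n ^ τ) (c * n ^ σ) := ⟨_, rfl⟩
  have hBd0 : 0 ≤ BD := by
    have := one_le_Bd w b l (n ^ κ) (n ^ μ) (c * n ^ τ) (c * n ^ σ) hg hR1
    rw [hBD]; linarith
  rw [← hBD]
  have hCx2 : 1 ≤ Cx ^ 2 := by nlinarith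
  have hE1a : 0 ≤ E1 N (A * Cx ^ 2) := by
    have := E1_one_le N (A * Cx ^ 2) (by positivity)
    linarith
  have hE1b : 0 ≤ E1 N A := by
    have := E1_one_le N A hA0
    linarith
  have key : (2 * E1 N (A * Cx ^ 2)) ^ (r + w) * ((d : ℝ) ^ E) ^ D ≤
      (2 * E1 N A) ^ (r + w) * ((((d * k : ℕ) : ℝ)) ^ E) ^ D := by
    have h1 := E1_scale N A (Cx ^ 2) (C0 * Λ) hCx2 hCx hA0
    have h2 : (2 * E1 N (A * Cx ^ 2)) ^ (r + w) ≤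
        (2 * E1 N A) ^ (r + w) * Real.exp (6 * A * (C0 * Λ)) ^ (r + w) := by
      rw [← mul_pow]
      apply pow_le_pow_left₀ (by positivity)
      linarith
    have h3 : Real.exp (6 * A * (C0 * Λ)) ^ (r + w) ≤ ((k : ℝ) ^ E) ^ D := by
      have h4 : Real.exp (6 * A * (C0 * Λ)) ^ (r + w) = Real.exp (B * Λ * m) := by
        rw [← Real.exp_nat_mul]
        congr 1
        rw [hB, hA]; ring
      have h5 : Real.exp (B * Λ * m) ≤ Real.exp (B * Λ) ^ E := by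
        rw [← Real.exp_nat_mul]
        apply Real.exp_le_exp.mpr
        have : 0 ≤ B * Λ := by positivity
        nlinarith
      have h6 : Real.exp (B * Λ) ^ E ≤ (k : ℝ) ^ E := pow_le_pow_left₀ (Real.exp_pos _).le hke _
      have h7 : (k : ℝ) ^ E ≤ ((k : ℝ) ^ E) ^ D := by
        have h8 : (1 : ℝ) ≤ (k : ℝ) ^ E := one_le_pow₀ (by exact_mod_cast hk1)
        calc (k : ℝ) ^ E = ((k : ℝ) ^ E) ^ 1 := (pow_one _).symm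
          _ ≤ _ := pow_le_pow_right₀ h8 hD1
      rw [h4]
      exact h5.trans (h6.trans h7)
    calc (2 * E1 N (A * Cx ^ 2)) ^ (r + w) * ((d : ℝ) ^ E) ^ D
        ≤ ((2 * E1 N A) ^ (r + w) * Real.exp (6 * A * (C0 * Λ)) ^ (r + w)) * ((d : ℝ) ^ E) ^ D := by
          gcongr
      _ ≤ ((2 * E1 N A) ^ (r + w) * ((k : ℝ) ^ E) ^ D) * ((d : ℝ) ^ E) ^ D := by
          gcongr
      _ = _ := by
          push_cast
          rw [mul_pow (d : ℝ) (k : ℝ), mul_pow ((d : ℝ) ^ E)]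
          ring
  apply pow_le_pow_left₀ (by positivity)
  have hrw : (0 : ℝ) ≤ ((r + w : ℕ) : ℝ) + 2 := by positivity
  calc 2 * J * ((((r + w : ℕ) : ℝ) + 2) * (2 * E1 N (A * Cx ^ 2)) ^ (r + w)) * ((d : ℝ) ^ E) ^ D *
        (J * BD) ^ D
      = (2 * J * (((r + w : ℕ) : ℝ) + 2) * (J * BD) ^ D) *
          ((2 * E1 N (A * Cx ^ 2)) ^ (r + w) * ((d : ℝ) ^ E) ^ D) := by ring
    _ ≤ (2 * J * (((r + w : ℕ) : ℝ) + 2) * (J * BD) ^ D) *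
          ((2 * E1 N A) ^ (r + w) * ((((d * k : ℕ) : ℝ)) ^ E) ^ D) :=
        mul_le_mul_of_nonneg_left key (by positivity)
    _ = _ := by ring

end Pool.Agent.L0h53.NP
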