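import Mathlib
import Pool.Agent.H335R2.Obs.Main

/-! A refined form of the key inequality of the obstruction theorem: the set of translations is
arbitrary (the proof is that of `key_ineq`). -/

set_option autoImplicit false

open MvPolynomial Finset Module

namespace Pool.Agent.L0h53.NP

open Pool.Agent.H364R2 Pool.Agent.H301R2.TR Pool.Agent.H335R2 Pool.Agent.H335R2.Obs

variable {w b l : ℕ} (A : Finset (Fin w)) (γ : Fin w → Fin b → ℂ) (α : Fin w → Fin l → ℂ)
  (χ : Fin b → Fin l → ℂ)

/-- the key inequality for a polynomial with many zeros, for an arbitrary set of translations which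
are pairwise inequivalent -/
theorem key_ineq_ref (hZ : ZEG) (hχ : ∀ j p, χ j p ≠ 0) (K M T S : ℕ) (hK : 1 ≤ K) (hM : 1 ≤ M)
    {J : Type} [Fintype J] (p : J → ℂ) (k : J → Fin w → ℕ) (m : J → Fin b → ℕ)
    (hk : ∀ j, ∀ i ∉ A, k j i = 0) (hinj : ∀ j j', k j = k j' → m j = m j' → j = j') (hp : p ≠ 0)
    (hkK : ∀ j i, k j i ≤ K) (hmM : ∀ j q, m j q ≤ M)
    (hvan : ∀ (t : Fin w → ℕ) (s : Fin l → ℕ), (∀ i, t i ≤ (A.card + b) * T) →
      (∀ q, s q ≤ (A.card + b) * S) → ∑ j, p j * entG γ α χ (k j) (m j) t s = 0) :
    ∃ (Af' : Submodule ℂ (Fin w → ℂ)) (Rm' : AddSubgroup (Fin b → ℤ))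
      (W0 : Submodule ℂ (Fin w → ℂ)) (G0 : AddSubgroup (Fin l → ℤ)),
      (∀ a ∈ Af', ∀ i ∉ A, a i = 0) ∧ ¬ (Af' = ⊥ ∧ Rm' = ⊥) ∧
      (∀ c, c ∈ W0 ↔ (∀ a ∈ Af', ∑ i, a i * c i = 0) ∧
        ∀ m ∈ Rm', ∑ j, (m j : ℂ) * ∑ i, c i * γ i j = 0) ∧
      (∀ s, s ∈ G0 ↔ (∀ a ∈ Af', ∑ i, a i * ∑ p, α i p * (s p : ℂ) = 0) ∧
        ∀ m ∈ Rm', ∏ j, (∏ p, χ j p ^ s p) ^ m j = 1) ∧
      ∃ l' : ℕ, l' ≤ w ∧ w ≤ l' + finrank ℂ W0 ∧ ∀ Δs : Finset (Fin l → ℤ),
        (∀ s ∈ Δs, ∀ q, 0 ≤ s q ∧ s q ≤ S) →
        (∀ s ∈ Δs, ∀ s' ∈ Δs, s - s' ∈ G0 → s = s') →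
        Δs.card * (T / l' + 1) ^ l' ≤
          2 ^ ((A.card + b + 1) * (A.card + b)) *
            (K ^ finrank ℂ Af' * M ^ finrank ℤ Rm') := by
  classical
  have hcard : Fintype.card (Ix A b) = A.card + b := by
    rw [Fintype.card_sum, Fintype.card_coe, Fintype.card_fin]
  set L : Ix A b → ℕ := Sum.elim (fun _ => K) (fun _ => M) with hL
  -- the set of points
  let bx : Finset (Fin l → ℤ) := Fintype.piFinset (fun _ => Finset.Icc (0 : ℤ) S)
  have hbx : ∀ s ∈ bx, ∀ q, 0 ≤ s q ∧ s q ≤ S := by
    intro s hs q
    exact Finset.mem_Icc.mp (Fintype.mem_piFinset.mp hs q)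
  let Γ₁ : Finset (Ix A b → ℂ) := bx.image (pt A α χ)
  obtain ⟨P, hP, hP0, hmain⟩ := hZ (Ix A b) (ad A b) w (Wd A γ) Γ₁ T (aux A γ p k m) L
    (by rintro (i | j) <;> simp [hL, hK, hM])
    (by
      intro g hg
      obtain ⟨s, -, rfl⟩ := Finset.mem_image.mp hg
      exact isG_pt A α χ hχ s)
    (aux_ne_zero A γ p k m hk hinj hp) (aux_mem_box A γ p k m hk K M hkK hmM)
    (by
      intro ks gs h1 h2 h3
      rw [hcard] at h1 h2
      obtain ⟨ss, hss, rfl⟩ : ∃ ss : List (Fin l → ℤ), (∀ s ∈ ss, s ∈ bx) ∧
          gs = ss.map (pt A α χ) := by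
        clear h2
        induction gs with
        | nil => exact ⟨[], by simp, rfl⟩
        | cons g gs ih =>
          obtain ⟨ss, h4, h5⟩ := ih (fun g hg => h3 g (List.mem_cons_of_mem _ hg))
          obtain ⟨s, hs, hsg⟩ := Finset.mem_image.mp (h3 g List.mem_cons_self)
          refine ⟨s :: ss, ?_, by rw [List.map_cons, hsg, h5]⟩
          intro s' hs'
          rcases List.mem_cons.mp hs' with rfl | h
          · exact hs
          · exact h4 s' h
      rw [List.length_map] at h2
      have hsum : ∀ ss : List (Fin l → ℤ), (∀ s ∈ ss, s ∈ bx) → ∀ q, 0 ≤ ss.sum q ∧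
          ss.sum q ≤ ss.length * S := by
        intro ss
        induction ss with
        | nil => intro _ q; simp
        | cons s ss ih =>
          intro h q
          have h5 := ih (fun s' hs' => h s' (List.mem_cons_of_mem _ hs')) q
          have h6 := hbx s (h s List.mem_cons_self) q
          rw [List.sum_cons, List.length_cons, Pi.add_apply]
          push_cast
          constructor
          · linarith [h5.1, h6.1]
          · nlinarith [h5.2, h6.2]
      have hs := hsum ss hss
      have hrep : ss.sum = fun q => (((ss.sum q).toNat : ℕ) : ℤ) := by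
        funext q
        rw [Int.toNat_of_nonneg (hs q).1]
      rw [prodG_map_pt A α χ hχ, hrep, eval_derIter_aux A α χ γ p k m hk]
      apply hvan
      · intro i
        exact (List.count_le_length).trans h1
      · intro q
        have h4 := (hs q).2
        have h5 : (ss.length : ℤ) * S ≤ ((A.card + b : ℕ) : ℤ) * S := by
          have : (ss.length : ℤ) ≤ ((A.card + b : ℕ) : ℤ) := by exact_mod_cast h2
          nlinarith
        have h6 : (ss.sum q).toNat ≤ (A.card + b) * S := by
          rw [Int.toNat_le]
          push_cast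
          push_cast at h5
          linarith
        exact h6)
  rw [hcard] at hmain
  -- coordinates
  obtain ⟨EW, hEW1, hEW2⟩ := coord (WP A γ P)
  obtain ⟨EA, hEA1, hEA2⟩ := coord (Af A γ α χ P hχ)
  obtain ⟨ER, hER1, hER2⟩ := finrank_toInt (Rm A γ α χ P hχ)
  let E : Finset (Ix A b) := univ.filter (Sum.elim (fun i => (i : Fin w) ∈ EA) (fun j => j ∈ ER))
  have hE : Indep P (E : Set (Ix A b)) := by
    refine Pool.Agent.H340R2.Stab.indep_of_stab_gen (ad A b) P hP (E : Set (Ix A b))
      {v | ∃ c ∈ WP A γ P, v = fun j => ∑ k, c k * Wd A γ k j}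
      {g | ∃ s ∈ GPs A α χ P hχ, g = pt A α χ s} ?_ ?_ ?_ ?_ ?_
    · rintro _ ⟨c, hc, rfl⟩ f _ hf
      exact hc f hf
    · rintro _ ⟨s, -, rfl⟩
      exact isG_pt A α χ hχ s
    · rintro _ ⟨s, hs, rfl⟩ f _ hf
      have hs' : trI (ad A b) (pt A α χ s) P = P := hs
      rw [← mem_trI, hs']; exact hf
    · intro lf h0 h1 h2
      let a : Fin w → ℂ := fun i => if h : i ∈ A then lf (Sum.inl ⟨i, h⟩) else 0
      have hsum : ∀ v : Fin w → ℂ, ∑ i, a i * v i = ∑ i : {i // i ∈ A}, lf (Sum.inl i) * v i := by
        intro v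
        rw [← Finset.sum_subset (Finset.subset_univ A)]
        · rw [← Finset.sum_coe_sort A]
          apply Finset.sum_congr rfl
          intro i _
          simp [a]
        · intro i _ hi
          simp [a, hi]
      have hlr : ∀ j : Fin b, lf (Sum.inr j) = 0 := fun j => h0 _ (Or.inr rfl)
      have ha : a ∈ Af A γ α χ P hχ := by
        refine ⟨fun i hi => by simp [a, hi], fun c hc => ?_, fun s hs => ?_⟩
        · have h3 := h1 _ ⟨c, hc, rfl⟩
          rw [Fintype.sum_sum_type] at h3
          simp only [hlr, zero_mul, Finset.sum_const_zero, add_zero] at h3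
          rw [hsum, ← h3]
          apply Finset.sum_congr rfl
          intro i _
          congr 1
          simp [Wd]
        · have h3 := h2 _ ⟨s, hs, rfl⟩
          rw [Fintype.sum_sum_type] at h3
          simp only [hlr, zero_mul, Finset.sum_const_zero, add_zero] at h3
          rw [hsum, ← h3]
          rfl
      have ha0 := hEA2 a ha (by
        intro i hi
        by_cases h : i ∈ A
        · simp only [a, dif_pos h]
          apply h0
          left
          simp [E, hi]
        · simp [a, h])
      rintro (i | j)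
      · have := congrFun ha0 i.1
        simpa [a] using this
      · exact hlr j
    · intro bb h0 h1 h2
      let mm : Fin b → ℤ := fun j => bb (Sum.inr j)
      have hbl : ∀ i : {i // i ∈ A}, bb (Sum.inl i) = 0 := fun i => h0 _ (Or.inr rfl)
      have hmm : mm ∈ Rm A γ α χ P hχ := by
        refine ⟨fun c hc => ?_, fun s hs => ?_⟩
        · have h3 := h1 _ ⟨c, hc, rfl⟩
          rw [Fintype.sum_sum_type] at h3
          simp only [hbl, Int.cast_zero, mul_zero, Finset.sum_const_zero, zero_add] at h3
          rw [← h3]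
          apply Finset.sum_congr rfl
          intro j _
          rw [mul_comm]
          rfl
        · have h3 := h2 _ ⟨s, hs, rfl⟩
          rw [Fintype.prod_sum_type] at h3
          simp only [ad, Sum.elim_inl, if_true, Finset.prod_const_one, one_mul, Sum.elim_inr,
            Bool.false_eq_true, if_false] at h3
          rw [← h3]
          rfl
      have h3 := hER2 mm hmm (by
        intro j hj
        apply h0
        left
        simp [E, hj])
      rintro (i | j)
      · exact hbl i
      · exact congrFun h3 j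
  -- conclusion
  let W0 : Submodule ℂ (Fin w → ℂ) :=
    { carrier := {c | (∀ a ∈ Af A γ α χ P hχ, ∑ i, a i * c i = 0) ∧
        ∀ m ∈ Rm A γ α χ P hχ, ∑ j, (m j : ℂ) * ∑ i, c i * γ i j = 0}
      zero_mem' := by simp
      add_mem' := by
        rintro c c' ⟨h1, h2⟩ ⟨h1', h2'⟩
        refine ⟨fun a ha => ?_, fun m hm => ?_⟩
        · simp only [Pi.add_apply, mul_add, Finset.sum_add_distrib, h1 a ha, h1' a ha, add_zero]
        · simp only [Pi.add_apply, add_mul, Finset.sum_add_distrib, mul_add, h2 m hm, h2' m hm,
            add_zero]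
      smul_mem' := by
        rintro r c ⟨h1, h2⟩
        refine ⟨fun a ha => ?_, fun m hm => ?_⟩
        · have := h1 a ha
          simp only [Pi.smul_apply, smul_eq_mul]
          have e1 : ∑ i, a i * (r * c i) = r * ∑ i, a i * c i := by
            rw [Finset.mul_sum]; apply Finset.sum_congr rfl; intro i _; ring
          rw [e1, this, mul_zero]
        · have := h2 m hm
          simp only [Pi.smul_apply, smul_eq_mul]
          have e1 : ∑ j, (m j : ℂ) * ∑ i, r * c i * γ i j =
              r * ∑ j, (m j : ℂ) * ∑ i, c i * γ i j := by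
            rw [Finset.mul_sum]; apply Finset.sum_congr rfl; intro j _
            rw [Finset.mul_sum, Finset.mul_sum, Finset.mul_sum]
            apply Finset.sum_congr rfl; intro i _; ring
          rw [e1, this, mul_zero] }
  let G0 : AddSubgroup (Fin l → ℤ) :=
    { carrier := {s | (∀ a ∈ Af A γ α χ P hχ, ∑ i, a i * ∑ p, α i p * (s p : ℂ) = 0) ∧
        ∀ m ∈ Rm A γ α χ P hχ, ∏ j, (∏ p, χ j p ^ s p) ^ m j = 1}
      zero_mem' := by simp
      add_mem' := by
        rintro s s' ⟨h1, h2⟩ ⟨h1', h2'⟩
        refine ⟨fun a ha => ?_, fun m hm => ?_⟩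
        · simp only [Pi.add_apply, Int.cast_add, mul_add, Finset.sum_add_distrib, h1 a ha, h1' a ha,
            add_zero]
        · have e1 : ∀ j, (∏ p, χ j p ^ (s + s') p) = (∏ p, χ j p ^ s p) * ∏ p, χ j p ^ s' p := by
            intro j
            rw [← Finset.prod_mul_distrib]
            apply Finset.prod_congr rfl
            intro p _
            rw [Pi.add_apply, zpow_add₀ (hχ j p)]
          simp only [e1, mul_zpow, Finset.prod_mul_distrib, h2 m hm, h2' m hm, mul_one]
      neg_mem' := by
        rintro s ⟨h1, h2⟩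
        refine ⟨fun a ha => ?_, fun m hm => ?_⟩
        · simp only [Pi.neg_apply, Int.cast_neg, mul_neg, Finset.sum_neg_distrib, h1 a ha, neg_zero]
        · simp only [Pi.neg_apply, zpow_neg, Finset.prod_inv_distrib, inv_zpow, h2 m hm, inv_one] }
  refine ⟨Af A γ α χ P hχ, Rm A γ α χ P hχ, W0, G0, fun a ha => ha.1, ?_, fun c => Iff.rfl,
    fun s => Iff.rfl, EW.card, ?_, ?_, ?_⟩
  · rintro ⟨hA0, hR0⟩
    apply hP0
    have hEu : E = univ := by
      rw [hA0, finrank_bot] at hEA1
      rw [hR0] at hER1
      have hER1' : (univ \ ER).card = 0 := by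
        rw [hER1]
        exact finrank_zero_of_subsingleton
      rw [Finset.card_eq_zero, Finset.sdiff_eq_empty_iff_subset] at hEA1 hER1'
      ext i
      simp only [E, Finset.mem_filter, Finset.mem_univ, true_and, iff_true]
      rcases i with i | j
      · exact hEA1 (Finset.mem_univ _)
      · exact hER1' (Finset.mem_univ _)
    rw [hEu, Finset.coe_univ] at hE
    rw [eq_bot_iff]
    intro f hf
    rw [Ideal.mem_bot]
    exact hE f (by rw [supported_univ]; trivial) hf
  · exact (Finset.card_le_univ EW).trans (by simp)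
  · have h1 : WP A γ P ≤ W0 := by
      intro c hc
      exact ⟨fun a ha => ha.2.1 c hc, fun m hm => hm.1 c hc⟩
    have h2 := Submodule.finrank_mono h1
    have h3 : (univ \ EW).card + EW.card = w := by
      rw [Finset.card_sdiff_of_subset (Finset.subset_univ _), Finset.card_univ, Fintype.card_fin]
      have := Finset.card_le_univ EW
      rw [Fintype.card_fin] at this
      omega
    omega
  · intro Δs hΔbox hΔG
    have hΔs : ∀ s ∈ Δs, s ∈ bx := by
      intro s hs
      rw [Fintype.mem_piFinset]
      intro q
      rw [Finset.mem_Icc]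
      exact hΔbox s hs q
    have hΔsep : ∀ s ∈ Δs, ∀ s' ∈ Δs,
        trI (ad A b) (pt A α χ s) P = trI (ad A b) (pt A α χ s') P → s = s' := by
      intro s hs s' hs' h
      have h1 : s - s' ∈ GPs A α χ P hχ := by
        change trI (ad A b) (pt A α χ (s - s')) P = P
        have h2 : pt A α χ (s - s') = gmul (ad A b) (pt A α χ (-s')) (pt A α χ s) := by
          rw [pt_add A α χ hχ]; congr 1; ring
        rw [h2, ← trI_trI, h, trI_trI, pt_add A α χ hχ, neg_add_cancel, pt_zero, trI_gone]
      exact hΔG s hs s' hs' ⟨fun a ha => ha.2.2 _ h1, fun m hm => hm.2 _ h1⟩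
    have hΔcard : (Δs.image (pt A α χ)).card = Δs.card := by
      rw [Finset.card_image_of_injOn]
      intro s hs s' hs' h
      exact hΔsep s hs s' hs' (by rw [h])
    -- the derivations
    let e := EW.equivFin.symm
    have hineq := hmain E hE (Δs.image (pt A α χ)) (Finset.image_subset_image hΔs) (by
        intro g hg g' hg' h
        obtain ⟨s, hs, rfl⟩ := Finset.mem_image.mp hg
        obtain ⟨s', hs', rfl⟩ := Finset.mem_image.mp hg'
        rw [hΔsep s hs s' hs' h]) EW.card (fun k => Wd A γ (e k).1)
      (fun k => Submodule.subset_span ⟨_, rfl⟩) (by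
        intro c hc
        have h1 : (fun i => if h : i ∈ EW then c (e.symm ⟨i, h⟩) else 0) ∈ WP A γ P := by
          have hfun : (fun j => ∑ k, (if h : k ∈ EW then c (e.symm ⟨k, h⟩) else 0) * Wd A γ k j) =
              (fun j => ∑ k, c k * Wd A γ (e k).1 j) := by
            funext j
            have h3 : ∑ k, (if h : k ∈ EW then c (e.symm ⟨k, h⟩) else 0) * Wd A γ k j =
                ∑ k ∈ EW, (if h : k ∈ EW then c (e.symm ⟨k, h⟩) else 0) * Wd A γ k j := by
              symm
              apply Finset.sum_subset (Finset.subset_univ _)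
              intro k _ hk
              rw [dif_neg hk, zero_mul]
            rw [h3, ← Finset.sum_coe_sort EW, ← Equiv.sum_comp e]
            apply Finset.sum_congr rfl
            intro k _
            rw [dif_pos (e k).2]
            simp
          intro f hf
          have h2 := hc f hf
          rw [← hfun] at h2
          exact h2
        have h2 := hEW2 _ h1 (by
          intro i hi
          rw [dif_neg hi])
        funext k
        have h3 := congrFun h2 (e k).1
        simpa using h3)
    rw [hΔcard] at hineq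
    refine hineq.trans (Nat.mul_le_mul_left _ ?_)
    have h1 : ∏ j ∈ univ \ E, L j ≤ K ^ (univ \ EA).card * M ^ (univ \ ER).card := by
      have h2 : ∏ j ∈ univ \ E, L j = ∏ j : Ix A b, if j ∈ E then 1 else L j := by
        rw [← Finset.prod_sdiff (Finset.subset_univ E) (f := fun j => if j ∈ E then 1 else L j)]
        rw [Finset.prod_congr rfl (g := L) (fun j hj => if_neg (Finset.mem_sdiff.mp hj).2),
          Finset.prod_congr (s₁ := E) (f := fun j => if j ∈ E then 1 else L j) (g := fun _ => 1) rfl
            (fun j hj => if_pos hj), Finset.prod_const_one, mul_one]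
      rw [h2, Fintype.prod_sum_type]
      apply Nat.mul_le_mul
      · have h3 : ∏ i : {i // i ∈ A}, (if (Sum.inl i : Ix A b) ∈ E then 1 else L (Sum.inl i)) =
            ∏ i ∈ A, (if i ∈ EA then 1 else K) := by
          rw [← Finset.prod_coe_sort A]
          apply Finset.prod_congr rfl
          intro i _
          simp [E, hL]
        rw [h3]
        calc ∏ i ∈ A, (if i ∈ EA then 1 else K) ≤ ∏ i : Fin w, (if i ∈ EA then 1 else K) := by
              apply Finset.prod_le_prod_of_subset_of_one_le' (Finset.subset_univ _)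
              intro i _ _
              split_ifs <;> omega
          _ = K ^ (univ \ EA).card := by
              rw [← Finset.prod_const, ← Finset.prod_sdiff (Finset.subset_univ EA)]
              rw [Finset.prod_congr rfl (g := fun _ => K)
                (fun j hj => if_neg (Finset.mem_sdiff.mp hj).2),
                Finset.prod_congr (s₁ := EA) (g := fun _ => 1) rfl
                (fun j hj => if_pos hj), Finset.prod_const_one, mul_one]
      · have h3 : ∏ i : Fin b, (if (Sum.inr i : Ix A b) ∈ E then 1 else L (Sum.inr i)) =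
            M ^ (univ \ ER).card := by
          rw [← Finset.prod_const, ← Finset.prod_sdiff (Finset.subset_univ ER)]
          rw [Finset.prod_congr rfl (g := fun _ => M)
            (fun j hj => by
              have := (Finset.mem_sdiff.mp hj).2
              simp [E, hL, this]),
            Finset.prod_congr (s₁ := ER) (g := fun _ => 1) rfl
            (fun j hj => by simp [E, hj]), Finset.prod_const_one, mul_one]
        rw [h3]
    rw [hEA1, hER1] at h1
    exact h1


end Pool.Agent.L0h53.NP
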