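import Mathlib
import Pool.Agent.L0h39.QA.Cases

set_option autoImplicit false

/-! Case analysis for obstruction subgroups of `G_a × G_m^2` and of `G_m^2` (three points). -/

namespace Pool.Agent.L0h53.NP

open Module Pool.Agent.L0h39.QA

theorem exists_ne {n : ℕ} {G : AddSubgroup (Fin n → ℤ)} (h : G ≠ ⊥) : ∃ m ∈ G, m ≠ 0 :=
  G.bot_or_exists_ne_zero.resolve_left h

theorem rank_bot (n : ℕ) : finrank ℤ (⊥ : AddSubgroup (Fin n → ℤ)) = 0 :=
  Module.finrank_zero_of_subsingleton

/-- The case analysis in `G_a × G_m^2`. -/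
theorem casesPi {a : ℕ} (Af : Submodule ℂ (Fin 1 → ℂ)) (Rm : AddSubgroup (Fin 2 → ℤ))
    (W0 : Submodule ℂ (Fin 1 → ℂ)) (G0 : AddSubgroup (Fin 3 → ℤ)) (A1 A2 R1 R2 : ℝ)
    (h0 : ¬ (Af = ⊥ ∧ Rm = ⊥))
    (hW : ∀ c ∈ W0, (∀ v ∈ Af, v 0 * c 0 = 0) ∧ ∀ m ∈ Rm, (m 0 : ℂ) * c 0 = 0)
    (hG : ∀ s ∈ G0, (∀ v ∈ Af, v 0 * (s 0 : ℂ) = 0) ∧
      ∀ m ∈ Rm, (m 0 : ℝ) * (s 1 * A1 + s 2 * A2) + (m 1 : ℝ) * (s 1 * R1 + s 2 * R2) = 0)
    (hind : ∀ s1 s2 : ℤ, (s1 : ℝ) * A1 + s2 * A2 = 0 → s1 = 0 ∧ s2 = 0)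
    (hle : (1 - finrank ℂ W0) * (9 * a + 8) + (3 - finrank ℤ G0) * (3 * a + 4) ≤
      finrank ℂ Af * (8 * a + 9) + finrank ℤ Rm * (5 * a + 5)) :
    (∃ m0 m1 : ℤ, m1 ≠ 0 ∧ (m0 : ℝ) * A1 + m1 * R1 = 0) ∨
      ∃ s1 s2 : ℤ, (s1 ≠ 0 ∨ s2 ≠ 0) ∧ (s1 : ℝ) * R1 + s2 * R2 = 0 := by
  have hR2 : finrank ℤ Rm ≤ 2 := rank_le Rm
  have hA1 : finrank ℂ Af ≤ 1 := by
    have := Submodule.finrank_le Af
    rwa [finrank_fin_fun] at this
  have hG3 : finrank ℤ G0 ≤ 3 := rank_le G0
  have hdet : ∀ m ∈ Rm, ∀ m' ∈ Rm, m 0 * m' 1 - m 1 * m' 0 ≠ 0 → ∀ s ∈ G0, s 1 = 0 ∧ s 2 = 0 := by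
    intro m hm m' hm' hd s hs
    have e1 := (hG s hs).2 m hm
    have e2 := (hG s hs).2 m' hm'
    have hd' : ((m 0 : ℝ) * m' 1 - m 1 * m' 0) ≠ 0 := by exact_mod_cast hd
    have e3 : ((m 0 : ℝ) * m' 1 - m 1 * m' 0) * (s 1 * A1 + s 2 * A2) = 0 := by
      linear_combination (m' 1 : ℝ) * e1 - (m 1 : ℝ) * e2
    exact hind _ _ ((mul_eq_zero.mp e3).resolve_left hd')
  by_cases hAf : Af = ⊥
  · have hRm : Rm ≠ ⊥ := fun h => h0 ⟨hAf, h⟩
    have hA0 : finrank ℂ Af = 0 := by rw [hAf, finrank_bot]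
    rw [hA0, zero_mul, zero_add] at hle
    by_cases hm : ∃ m ∈ Rm, m 0 ≠ 0
    · exfalso
      obtain ⟨m, hm, hm0⟩ := hm
      have hW0 : finrank ℂ W0 = 0 := by
        have : W0 = ⊥ := by
          rw [Submodule.eq_bot_iff]
          intro c hc
          have h1 := (hW c hc).2 m hm
          have h2 : (m 0 : ℂ) ≠ 0 := by exact_mod_cast hm0
          funext i
          fin_cases i
          exact (mul_eq_zero.mp h1).resolve_left h2
        rw [this, finrank_bot]
      rw [hW0] at hle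
      rcases Nat.lt_or_ge (finrank ℤ Rm) 2 with h | h
      · have : finrank ℤ Rm * (5 * a + 5) ≤ 1 * (5 * a + 5) := Nat.mul_le_mul_right _ (by omega)
        omega
      · obtain ⟨m, hm, m', hm', hd⟩ := exists_det h
        have h1 := hdet m hm m' hm' hd
        have h2 : finrank ℤ G0 ≤ 1 := by
          refine rank_le_of_inj G0 (co1 0) ?_
          intro s hs hs0
          have h3 := co1_eq hs0
          obtain ⟨h4, h5⟩ := h1 s hs
          funext i
          fin_cases i
          · exact h3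
          · exact h4
          · exact h5
        have h3 : 2 * (3 * a + 4) ≤ (3 - finrank ℤ G0) * (3 * a + 4) :=
          Nat.mul_le_mul_right _ (by omega)
        have h4 : finrank ℤ Rm * (5 * a + 5) ≤ 2 * (5 * a + 5) := Nat.mul_le_mul_right _ hR2
        omega
    · push Not at hm
      right
      have h1 : finrank ℤ Rm ≤ 1 := by
        refine rank_le_of_inj Rm (co1 1) ?_
        intro s hs hs0
        have h3 := co1_eq hs0
        funext i
        fin_cases i
        · exact hm s hs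
        · exact h3
      obtain ⟨m, hmm, hm0⟩ := exists_ne hRm
      have hm1 : m 1 ≠ 0 := by
        intro h
        apply hm0
        funext i
        fin_cases i
        · exact hm m hmm
        · exact h
      by_contra hcon
      push Not at hcon
      have h2 : finrank ℤ G0 ≤ 1 := by
        refine rank_le_of_inj G0 (co1 0) ?_
        intro s hs hs0
        have h3 := co1_eq hs0
        have h4 := (hG s hs).2 m hmm
        rw [hm m hmm] at h4
        have h5 : (m 1 : ℝ) ≠ 0 := by exact_mod_cast hm1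
        have h6 : (s 1 : ℝ) * R1 + s 2 * R2 = 0 := by
          have : (m 1 : ℝ) * (s 1 * R1 + s 2 * R2) = 0 := by
            push_cast at h4
            linear_combination h4
          exact (mul_eq_zero.mp this).resolve_left h5
        have h7 : s 1 = 0 ∧ s 2 = 0 := by
          by_contra hc
          exact hcon (s 1) (s 2) (by tauto) h6
        funext i
        fin_cases i
        · exact h3
        · exact h7.1
        · exact h7.2
      have h3 : 2 * (3 * a + 4) ≤ (3 - finrank ℤ G0) * (3 * a + 4) :=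
        Nat.mul_le_mul_right _ (by omega)
      have h4 : finrank ℤ Rm * (5 * a + 5) ≤ 1 * (5 * a + 5) := Nat.mul_le_mul_right _ h1
      omega
  · obtain ⟨v, hv, hv0⟩ := Submodule.exists_mem_ne_zero_of_ne_bot hAf
    have hv00 : v 0 ≠ 0 := by
      intro h
      apply hv0
      funext i
      fin_cases i
      exact h
    have hW0 : finrank ℂ W0 = 0 := by
      have : W0 = ⊥ := by
        rw [Submodule.eq_bot_iff]
        intro c hc
        funext i
        fin_cases i
        exact (mul_eq_zero.mp ((hW c hc).1 v hv)).resolve_left hv00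
      rw [this, finrank_bot]
    rw [hW0] at hle
    have hs0 : ∀ s ∈ G0, s 0 = 0 := by
      intro s hs
      have h1 := (hG s hs).1 v hv
      have h2 := (mul_eq_zero.mp h1).resolve_left hv00
      exact_mod_cast h2
    have hAle : finrank ℂ Af * (8 * a + 9) ≤ 1 * (8 * a + 9) := Nat.mul_le_mul_right _ hA1
    have hG2 : finrank ℤ G0 ≤ 2 := by
      refine rank_le_of_inj G0 (co2 1 2) ?_
      intro s hs hs'
      obtain ⟨h1, h2⟩ := co2_eq hs'
      funext i
      fin_cases i
      · exact hs0 s hs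
      · exact h1
      · exact h2
    rcases Nat.lt_or_ge (finrank ℤ Rm) 2 with h | h
    · rcases Nat.lt_or_ge (finrank ℤ Rm) 1 with h' | h'
      · exfalso
        have h3 : 1 * (3 * a + 4) ≤ (3 - finrank ℤ G0) * (3 * a + 4) :=
          Nat.mul_le_mul_right _ (by omega)
        have h4 : finrank ℤ Rm = 0 := by omega
        rw [h4] at hle
        omega
      · left
        have hRm : Rm ≠ ⊥ := by
          intro hb
          rw [hb, rank_bot] at h'
          omega
        obtain ⟨m, hmm, hm0⟩ := exists_ne hRm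
        have hG2' : 2 ≤ finrank ℤ G0 := by
          by_contra hc
          have h3 : 2 * (3 * a + 4) ≤ (3 - finrank ℤ G0) * (3 * a + 4) :=
            Nat.mul_le_mul_right _ (by omega)
          have h4 : finrank ℤ Rm * (5 * a + 5) ≤ 1 * (5 * a + 5) :=
            Nat.mul_le_mul_right _ (by omega)
          omega
        have hrel : ∀ s ∈ G0, (s 1 : ℝ) * (m 0 * A1 + m 1 * R1) +
            s 2 * (m 0 * A2 + m 1 * R2) = 0 := by
          intro s hs
          have := (hG s hs).2 m hmm
          linear_combination this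
        have hu : (m 0 : ℝ) * A1 + m 1 * R1 = 0 := by
          by_contra hu
          have h2 : finrank ℤ G0 ≤ 1 := by
            refine rank_le_of_inj G0 (co1 2) ?_
            intro s hs hs'
            have h3 := co1_eq hs'
            have h4 := hrel s hs
            rw [h3] at h4
            have h5 : (s 1 : ℝ) * (m 0 * A1 + m 1 * R1) = 0 := by
              push_cast at h4
              linear_combination h4
            have h6 : (s 1 : ℝ) = 0 := (mul_eq_zero.mp h5).resolve_right hu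
            funext i
            fin_cases i
            · exact hs0 s hs
            · exact_mod_cast h6
            · exact h3
          omega
        refine ⟨m 0, m 1, ?_, hu⟩
        intro h1
        rw [h1] at hu
        have h2 : ((m 0 : ℤ) : ℝ) * A1 + ((0 : ℤ) : ℝ) * A2 = 0 := by
          push_cast at hu ⊢
          linear_combination hu
        have h3 := (hind _ _ h2).1
        apply hm0
        funext i
        fin_cases i
        · exact h3
        · exact h1
    · exfalso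
      obtain ⟨m, hm, m', hm', hd⟩ := exists_det h
      have h1 := hdet m hm m' hm' hd
      have h2 : G0 = ⊥ := by
        rw [AddSubgroup.eq_bot_iff_forall]
        intro s hs
        obtain ⟨h4, h5⟩ := h1 s hs
        funext i
        fin_cases i
        · exact hs0 s hs
        · exact h4
        · exact h5
      rw [h2, rank_bot] at hle
      have h4 : finrank ℤ Rm * (5 * a + 5) ≤ 2 * (5 * a + 5) := Nat.mul_le_mul_right _ hR2
      omega

/-- The case analysis in `G_m^2`. -/
theorem casesE {a : ℕ} (Rm : AddSubgroup (Fin 2 → ℤ)) (G0 : AddSubgroup (Fin 3 → ℤ))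
    (A R : Fin 3 → ℝ) (h0 : Rm ≠ ⊥)
    (hG : ∀ s ∈ G0, ∀ m ∈ Rm, (m 0 : ℝ) * ∑ p, (s p : ℝ) * A p + (m 1 : ℝ) * ∑ p, (s p : ℝ) * R p = 0)
    (hind : ∀ s : Fin 3 → ℤ, ∑ p, (s p : ℝ) * A p = 0 → s = 0)
    (hle : (3 - finrank ℤ G0) * (2 * a + 3) ≤ finrank ℤ Rm * (3 * a + 4)) :
    2 ≤ finrank ℤ G0 ∧ ∃ m0 m1 : ℤ, m1 ≠ 0 ∧ ∀ s ∈ G0,
      (m0 : ℝ) * ∑ p, (s p : ℝ) * A p + (m1 : ℝ) * ∑ p, (s p : ℝ) * R p = 0 := by
  have hR2 : finrank ℤ Rm ≤ 2 := rank_le Rm
  have hG3 : finrank ℤ G0 ≤ 3 := rank_le G0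
  rcases Nat.lt_or_ge (finrank ℤ Rm) 2 with h | h
  · have hG2' : 2 ≤ finrank ℤ G0 := by
      by_contra hc
      have h3 : 2 * (2 * a + 3) ≤ (3 - finrank ℤ G0) * (2 * a + 3) :=
        Nat.mul_le_mul_right _ (by omega)
      have h4 : finrank ℤ Rm * (3 * a + 4) ≤ 1 * (3 * a + 4) :=
        Nat.mul_le_mul_right _ (by omega)
      omega
    obtain ⟨m, hmm, hm0⟩ := exists_ne h0
    refine ⟨hG2', m 0, m 1, ?_, fun s hs => hG s hs m hmm⟩
    intro h1
    have h2 : m 0 ≠ 0 := by
      intro h2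
      apply hm0
      funext i
      fin_cases i
      · exact h2
      · exact h1
    have h3 : G0 = ⊥ := by
      rw [AddSubgroup.eq_bot_iff_forall]
      intro s hs
      have h4 := hG s hs m hmm
      rw [h1] at h4
      push_cast at h4
      rw [zero_mul, add_zero] at h4
      have h5 : (m 0 : ℝ) ≠ 0 := by exact_mod_cast h2
      exact hind s ((mul_eq_zero.mp h4).resolve_left h5)
    rw [h3, rank_bot] at hG2'
    omega
  · exfalso
    obtain ⟨m, hm, m', hm', hd⟩ := exists_det h
    have h2 : G0 = ⊥ := by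
      rw [AddSubgroup.eq_bot_iff_forall]
      intro s hs
      have e1 := hG s hs m hm
      have e2 := hG s hs m' hm'
      have hd' : ((m 0 : ℝ) * m' 1 - m 1 * m' 0) ≠ 0 := by exact_mod_cast hd
      have e3 : ((m 0 : ℝ) * m' 1 - m 1 * m' 0) * ∑ p, (s p : ℝ) * A p = 0 := by
        linear_combination (m' 1 : ℝ) * e1 - (m 1 : ℝ) * e2
      exact hind s ((mul_eq_zero.mp e3).resolve_left hd')
    rw [h2, rank_bot] at hle
    have h4 : finrank ℤ Rm * (3 * a + 4) ≤ 2 * (3 * a + 4) := Nat.mul_le_mul_right _ hR2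
    omega

end Pool.Agent.L0h53.NP
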