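import Mathlib
import Pool.Agent.L0h53.NP.Base
import Pool.Agent.L0h53.NP.PiCases
import Pool.Agent.L0h53.NP.ObsU

set_option autoImplicit false

/-! The configuration `(i, 1, -1), (0, a, r), (0, a', r')` in `G_a × G_m^2`. -/

namespace Pool.Agent.L0h53.NP

open Finset Module Pool.Agent.H301R2.TR Pool.Agent.L0h39.QA

/-- the characters of the additive coordinate -/
def gamPi (_ : Fin 1) (j : Fin 2) : ℤ := if j = 0 then -1 else 0

theorem exists_ratio (u v : ℕ) (κ' : ℝ) (h : (u : ℝ) < κ') : ∃ a : ℕ, 1 ≤ a ∧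
    ((u * a + v : ℕ) : ℝ) / a ≤ κ' := by
  obtain ⟨k, hk⟩ := exists_nat_gt ((v : ℝ) / (κ' - u))
  refine ⟨k + 1, by omega, ?_⟩
  have h1 : 0 < κ' - u := by linarith
  rw [div_lt_iff₀ h1] at hk
  have h2 : (0 : ℝ) < ((k + 1 : ℕ) : ℝ) := by positivity
  rw [div_le_iff₀ h2]
  push_cast
  nlinarith

theorem corePi (κ' : ℝ) (hκ' : 9 < κ') : ∃ C : ℝ, 0 < C ∧ ∀ H : ℝ, 3 ≤ H →
    ∀ a0 a1 r0 r1 : ℚ, 0 < a0 → 0 < a1 → 0 < r0 → 0 < r1 → HtLe H a0 → HtLe H a1 → HtLe H r0 →
    HtLe H r1 →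
    |Real.exp (Real.pi * Real.log a0) - r0| ≤ Real.exp (-(C * Real.log H ^ κ')) →
    |Real.exp (Real.pi * Real.log a1) - r1| ≤ Real.exp (-(C * Real.log H ^ κ')) →
    (∀ s1 s2 : ℤ, (s1 : ℝ) * Real.log a0 + s2 * Real.log a1 = 0 → s1 = 0 ∧ s2 = 0) →
    (∃ m0 m1 : ℤ, m1 ≠ 0 ∧ (m0 : ℝ) * Real.log a0 + m1 * Real.log r0 = 0) ∨
      ∃ s1 s2 : ℤ, (s1 ≠ 0 ∨ s2 ≠ 0) ∧ (s1 : ℝ) * Real.log r0 + s2 * Real.log r1 = 0 := by
  obtain ⟨a, ha1, haκ⟩ := exists_ratio 9 9 κ' (by exact_mod_cast hκ')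
  obtain ⟨C1, hC1, n0, hmain⟩ := obstructionU (l := 3) (r := 1) gamPi (8 * a + 9) (5 * a + 5) (3 * a + 4)
    (9 * a + 8) a 2 4 (by norm_num) (by norm_num) (by norm_num) (by ring) (by ring) ha1
    (by ring_nf; omega)
  obtain ⟨C, hC, hCn⟩ := choose_nU a (9 * a + 9) ha1 κ' haκ C1 hC1 n0 4 (by norm_num)
  refine ⟨C, hC, ?_⟩
  intro H hH a0 a1 r0 r1 ha0p ha1p hr0p hr1p ha0H ha1H hr0H hr1H hap0 hap1 hind
  obtain ⟨n, hn0, hn1, hnΛ, hnε⟩ := hCn H hH
  have hz : ∀ i, AlgB 1 H ((![(a0 : ℂ), (a1 : ℂ), (r0 : ℂ), (r1 : ℂ)] : Fin 4 → ℂ) i) := by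
    intro i
    fin_cases i
    · exact ha0H.algB
    · exact ha1H.algB
    · exact hr0H.algB
    · exact hr1H.algB
  obtain ⟨F, iF, iNF, φ, I', z', d, hφI, hI2, hφz, hfin, hd, hdH, hzd, hId, hzR, hIR⟩ :=
    exists_field_bound 1 4 H _ hz
  have h0 : φ (z' 0) = (a0 : ℂ) := hφz 0
  have h1 : φ (z' 1) = (a1 : ℂ) := hφz 1
  have h2 : φ (z' 2) = (r0 : ℂ) := hφz 2
  have h3 : φ (z' 3) = (r1 : ℂ) := hφz 3
  have hlog : 1 ≤ Real.log H := by
    rw [Real.le_log_iff_exp_le (by linarith)]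
    have := Real.exp_one_lt_d9
    linarith
  obtain ⟨L, hL⟩ : ∃ L, L = Real.log H := ⟨_, rfl⟩
  rw [← hL] at hlog hnΛ hnε hap0 hap1
  have hexpΛ : Real.exp (4 * L) = H ^ 4 := by
    rw [show (4 : ℝ) * L = ((4 : ℕ) : ℝ) * L by norm_num, Real.exp_nat_mul, hL,
      Real.exp_log (by linarith)]
  obtain ⟨S, hS⟩ : ∃ S, S = Real.sqrt L := ⟨_, rfl⟩
  have hS2 : S ^ 2 = L := by rw [hS]; exact Real.sq_sqrt (by linarith)
  have hS0 : 0 ≤ S := by rw [hS]; exact Real.sqrt_nonneg _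
  have hS1 : 1 ≤ S := by nlinarith
  have hSne : (S : ℂ) ≠ 0 := by
    have : S ≠ 0 := by linarith
    exact_mod_cast this
  -- logarithms
  have hlogle : ∀ q : ℚ, 0 < q → HtLe H q → |Real.log q| ≤ L := by
    intro q hq hqH
    obtain ⟨e1, e2⟩ := hqH
    have hnum : 0 < q.num := Rat.num_pos.mpr hq
    have hq1 : (q : ℝ) = (q.num : ℝ) / (q.den : ℝ) := by exact_mod_cast (Rat.num_div_den q).symm
    have hn : (1 : ℝ) ≤ (q.num : ℝ) := by exact_mod_cast hnum
    have hdd : (1 : ℝ) ≤ (q.den : ℝ) := by exact_mod_cast q.pos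
    rw [abs_of_pos (by linarith)] at e1
    rw [hq1, Real.log_div (by linarith) (by linarith), abs_le]
    have l1 := Real.log_nonneg hn
    have l2 := Real.log_nonneg hdd
    have l3 := Real.log_le_log (by linarith) e1
    have l4 := Real.log_le_log (by linarith) e2
    rw [← hL] at l3 l4
    constructor <;> linarith
  -- the two points
  let x : Fin 1 → Fin 2 → ℂ := fun _ => ![(S : ℂ), (S : ℂ) * (Real.pi : ℂ)]
  let y : Fin 1 → Fin 3 → ℂ := fun _ => ![Complex.I / (S : ℂ), (Real.log a0 : ℂ) / (S : ℂ),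
    (Real.log a1 : ℂ) / (S : ℂ)]
  let ω : Fin 1 → Fin 3 → ℂ := fun _ => ![Complex.I, 0, 0]
  let α : Fin 1 → Fin 3 → F := fun _ => ![I', 0, 0]
  let χ : Fin 2 → Fin 3 → F := ![![1, z' 0, z' 1], ![-1, z' 2, z' 3]]
  let E : Fin 2 → Fin 3 → ℂ := ![![0, (Real.log a0 : ℂ), (Real.log a1 : ℂ)],
    ![(Real.pi : ℂ) * Complex.I, (Real.pi : ℂ) * (Real.log a0 : ℂ),
      (Real.pi : ℂ) * (Real.log a1 : ℂ)]]
  let T : Fin 2 → Fin 3 → ℂ := ![![1, (a0 : ℂ), (a1 : ℂ)],
    ![-1, ((Real.exp (Real.pi * Real.log a0) : ℝ) : ℂ), ((Real.exp (Real.pi * Real.log a1) : ℝ) : ℂ)]]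
  have hsum : ∀ j p, ∑ ρ, x ρ j * y ρ p + ∑ i, ((gamPi i j : ℤ) : ℂ) * ω i p = E j p := by
    intro j p
    fin_cases j <;> fin_cases p <;> simp [x, y, ω, E, gamPi] <;> field_simp <;> ring
  have ha0R : (0 : ℝ) < a0 := by exact_mod_cast ha0p
  have ha1R : (0 : ℝ) < a1 := by exact_mod_cast ha1p
  have hr0R : (0 : ℝ) < r0 := by exact_mod_cast hr0p
  have hr1R : (0 : ℝ) < r1 := by exact_mod_cast hr1p
  have hexpE : ∀ j p, Complex.exp (E j p) = T j p := by
    have e0 : Complex.exp (Real.log a0 : ℂ) = (a0 : ℂ) := by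
      rw [← Complex.ofReal_exp, Real.exp_log ha0R]; norm_cast
    have e1 : Complex.exp (Real.log a1 : ℂ) = (a1 : ℂ) := by
      rw [← Complex.ofReal_exp, Real.exp_log ha1R]; norm_cast
    intro j p
    fin_cases j <;> fin_cases p
    · simp [E, T]
    · exact e0
    · exact e1
    · exact Complex.exp_pi_mul_I
    · simp [E, T]
    · simp [E, T]
  have hqle : ∀ q : ℚ, 0 < q → HtLe H q → (q : ℝ) ≤ H := by
    intro q hq hqH
    obtain ⟨e1, e2⟩ := hqH
    have hq1 : (q : ℝ) = (q.num : ℝ) / (q.den : ℝ) := by exact_mod_cast (Rat.num_div_den q).symm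
    have hdd : (1 : ℝ) ≤ (q.den : ℝ) := by exact_mod_cast q.pos
    rw [hq1, div_le_iff₀ (by linarith)]
    have := le_abs_self (q.num : ℝ)
    nlinarith
  have hap : ∀ t : ℝ, |t| ≤ Real.exp (-(C * L ^ κ')) → |t| ≤ 1 := by
    intro t ht
    refine ht.trans ?_
    rw [Real.exp_le_one_iff]
    have : 0 ≤ L ^ κ' := Real.rpow_nonneg (by linarith) _
    nlinarith
  have hRT : ∀ j p, ‖T j p‖ ≤ H + 1 := by
    intro j p
    fin_cases j <;> fin_cases p
    · simp [T]; linarith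
    · change ‖((a0 : ℚ) : ℂ)‖ ≤ H + 1
      rw [show ((a0 : ℚ) : ℂ) = ((a0 : ℝ) : ℂ) by norm_cast, Complex.norm_real, Real.norm_eq_abs,
        abs_of_pos ha0R]
      have := hqle a0 ha0p ha0H
      linarith
    · change ‖((a1 : ℚ) : ℂ)‖ ≤ H + 1
      rw [show ((a1 : ℚ) : ℂ) = ((a1 : ℝ) : ℂ) by norm_cast, Complex.norm_real, Real.norm_eq_abs,
        abs_of_pos ha1R]
      have := hqle a1 ha1p ha1H
      linarith
    · simp [T]; linarith
    · change ‖((Real.exp (Real.pi * Real.log a0) : ℝ) : ℂ)‖ ≤ H + 1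
      rw [Complex.norm_real, Real.norm_eq_abs, abs_of_pos (Real.exp_pos _)]
      have e1 := (abs_le.mp (hap _ hap0)).2
      have := hqle r0 hr0p hr0H
      linarith
    · change ‖((Real.exp (Real.pi * Real.log a1) : ℝ) : ℂ)‖ ≤ H + 1
      rw [Complex.norm_real, Real.norm_eq_abs, abs_of_pos (Real.exp_pos _)]
      have e1 := (abs_le.mp (hap _ hap1)).2
      have := hqle r1 hr1p hr1H
      linarith
  have hpi4 : Real.pi ≤ 4 := Real.pi_le_four
  have hx : ∀ ρ j, ‖x ρ j‖ ≤ 4 * S := by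
    intro ρ j
    fin_cases j
    · change ‖(S : ℂ)‖ ≤ 4 * S
      rw [Complex.norm_real, Real.norm_eq_abs, abs_of_nonneg hS0]
      linarith
    · change ‖(S : ℂ) * (Real.pi : ℂ)‖ ≤ 4 * S
      rw [norm_mul, Complex.norm_real, Complex.norm_real, Real.norm_eq_abs, Real.norm_eq_abs,
        abs_of_nonneg hS0, abs_of_pos Real.pi_pos]
      nlinarith
  have hlogS : ∀ q : ℚ, 0 < q → HtLe H q → ‖(Real.log q : ℂ) / (S : ℂ)‖ ≤ 4 * S := by
    intro q hq hqH
    rw [norm_div, Complex.norm_real, Complex.norm_real, Real.norm_eq_abs, Real.norm_eq_abs,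
      abs_of_nonneg hS0, div_le_iff₀ (by linarith)]
    have := hlogle q hq hqH
    nlinarith
  have hy : ∀ ρ p, ‖y ρ p‖ ≤ 4 * S := by
    intro ρ p
    fin_cases p
    · change ‖Complex.I / (S : ℂ)‖ ≤ 4 * S
      rw [norm_div, Complex.norm_I, Complex.norm_real, Real.norm_eq_abs, abs_of_nonneg hS0,
        div_le_iff₀ (by linarith)]
      nlinarith
    · exact hlogS a0 ha0p ha0H
    · exact hlogS a1 ha1p ha1H
  have hω : ∀ i p, ‖ω i p‖ ≤ 1 := by
    intro i p
    fin_cases p <;> simp [ω]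
  have hI' : IsIntegral ℤ I' := by
    refine ⟨Polynomial.X ^ 2 + 1, ?_, ?_⟩
    · monicity!
    · rw [Polynomial.eval₂_add, Polynomial.eval₂_pow, Polynomial.eval₂_X, Polynomial.eval₂_one,
        hI2]; ring
  have hz0 : ∀ i, z' i ≠ 0 := by
    intro i hi
    have h4 := hφz i
    rw [hi, map_zero] at h4
    fin_cases i
    · change (0 : ℂ) = (a0 : ℂ) at h4
      exact ha0p.ne (by exact_mod_cast h4)
    · change (0 : ℂ) = (a1 : ℂ) at h4
      exact ha1p.ne (by exact_mod_cast h4)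
    · change (0 : ℂ) = (r0 : ℂ) at h4
      exact hr0p.ne (by exact_mod_cast h4)
    · change (0 : ℂ) = (r1 : ℂ) at h4
      exact hr1p.ne (by exact_mod_cast h4)
  have hH4 : H + 1 ≤ H ^ 4 := by
    have : H ^ 4 = H * H ^ 3 := by ring
    have : (27 : ℝ) ≤ H ^ 3 := by
      calc (27 : ℝ) = 3 ^ 3 := by norm_num
        _ ≤ H ^ 3 := pow_le_pow_left₀ (by norm_num) hH 3
    nlinarith
  obtain ⟨Af, Rm, W0, G0, q1, q2, q3, q4⟩ := hmain n hn0 F φ α χ x y ω (4 * L) (H + 1)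
    ((1 / 4) ^ (n ^ (9 * a + 9))) (4 * S) d (by linarith) (by nlinarith) hx hy
    (fun i p => (hω i p).trans (by linarith))
    (fun i j => by
      fin_cases j <;> simp [gamPi] <;> linarith)
    hnΛ (by linarith) (by linarith) (by rw [hexpΛ]; exact hH4) hd
    (by rw [hexpΛ]; exact hdH) (by simpa using hfin) (by positivity)
    (by rw [show 8 * a + 9 + a = 9 * a + 9 by ring])
    (fun i p => by
      fin_cases p
      · exact (IntD.of_int hI').mono (by omega)
      · exact (IntD.of_int (by exact isIntegral_zero)).mono (by omega)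
      · exact (IntD.of_int (by exact isIntegral_zero)).mono (by omega))
    (fun j p => by
      fin_cases j <;> fin_cases p
      · exact (IntD.of_int (by exact isIntegral_one)).mono (by omega)
      · exact hzd 0
      · exact hzd 1
      · exact (IntD.of_int (by exact isIntegral_one.neg)).mono (by omega)
      · exact hzd 2
      · exact hzd 3)
    (fun τ' i p => by
      fin_cases p
      · change ‖τ' I'‖ ≤ H + 1
        rw [hIR τ']; linarith
      · change ‖τ' 0‖ ≤ H + 1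
        rw [map_zero, norm_zero]; linarith
      · change ‖τ' 0‖ ≤ H + 1
        rw [map_zero, norm_zero]; linarith)
    (fun τ' j p => by
      fin_cases j <;> fin_cases p
      · change ‖τ' 1‖ ≤ H + 1
        rw [map_one, norm_one]; linarith
      · exact (hzR τ' 0).trans (by linarith)
      · exact (hzR τ' 1).trans (by linarith)
      · change ‖τ' (-1)‖ ≤ H + 1
        rw [map_neg, map_one, norm_neg, norm_one]; linarith
      · exact (hzR τ' 2).trans (by linarith)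
      · exact (hzR τ' 3).trans (by linarith))
    (fun i p => (hω i p).trans (by linarith))
    (fun j p => by rw [hsum, hexpE]; exact hRT j p)
    (fun i p => by
      fin_cases p
      · change ‖φ I' - Complex.I‖ ≤ _
        rw [hφI, sub_self, norm_zero]; positivity
      · change ‖φ 0 - 0‖ ≤ _
        rw [map_zero, sub_self, norm_zero]; positivity
      · change ‖φ 0 - 0‖ ≤ _
        rw [map_zero, sub_self, norm_zero]; positivity)
    (fun j p => by
      rw [hsum, hexpE]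
      fin_cases j <;> fin_cases p
      · change ‖φ 1 - 1‖ ≤ _
        rw [map_one, sub_self, norm_zero]; positivity
      · change ‖φ (z' 0) - (a0 : ℂ)‖ ≤ _
        rw [h0, sub_self, norm_zero]; positivity
      · change ‖φ (z' 1) - (a1 : ℂ)‖ ≤ _
        rw [h1, sub_self, norm_zero]; positivity
      · change ‖φ (-1) - (-1)‖ ≤ _
        rw [map_neg, map_one, sub_self, norm_zero]; positivity
      · change ‖φ (z' 2) - ((Real.exp (Real.pi * Real.log a0) : ℝ) : ℂ)‖ ≤ _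
        rw [h2, norm_sub_rev, show ((r0 : ℚ) : ℂ) = ((r0 : ℝ) : ℂ) by norm_cast,
          ← Complex.ofReal_sub, Complex.norm_real, Real.norm_eq_abs]
        exact hap0.trans hnε
      · change ‖φ (z' 3) - ((Real.exp (Real.pi * Real.log a1) : ℝ) : ℂ)‖ ≤ _
        rw [h3, norm_sub_rev, show ((r1 : ℚ) : ℂ) = ((r1 : ℝ) : ℂ) by norm_cast,
          ← Complex.ofReal_sub, Complex.norm_real, Real.norm_eq_abs]
        exact hap1.trans hnε)
    (fun j p => by
      fin_cases j <;> fin_cases p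
      · exact one_ne_zero
      · exact hz0 0
      · exact hz0 1
      · exact neg_ne_zero.mpr one_ne_zero
      · exact hz0 2
      · exact hz0 3)
  refine casesPi (a := a) Af Rm W0 G0 (Real.log a0) (Real.log a1) (Real.log r0) (Real.log r1) q1 ?_ ?_
    hind q4
  · intro c hc
    obtain ⟨e1, e2⟩ := (q2 c).mp hc
    refine ⟨fun v hv => by simpa using e1 v hv, fun m hm => ?_⟩
    have e3 := e2 m hm
    simp [gamPi] at e3
    rcases e3 with e3 | e3
    · rw [e3]; simp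
    · rw [e3]; simp
  · intro s hs
    obtain ⟨e1, e2⟩ := (q3 s).mp hs
    refine ⟨fun v hv => ?_, fun m hm => ?_⟩
    · have e3 := e1 v hv
      simp only [Finset.univ_unique, Fin.default_eq_zero, Finset.sum_singleton,
        Fin.sum_univ_three] at e3
      change v 0 * (φ I' * (s 0 : ℂ) + φ 0 * (s 1 : ℂ) + φ 0 * (s 2 : ℂ)) = 0 at e3
      rw [hφI, map_zero] at e3
      have : Complex.I * (v 0 * (s 0 : ℂ)) = 0 := by linear_combination e3
      exact (mul_eq_zero.mp this).resolve_left Complex.I_ne_zero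
    · have e3 := e2 m hm
      rw [Fin.prod_univ_two, Fin.prod_univ_three, Fin.prod_univ_three] at e3
      change (φ 1 ^ s 0 * φ (z' 0) ^ s 1 * φ (z' 1) ^ s 2) ^ m 0 *
        (φ (-1) ^ s 0 * φ (z' 2) ^ s 1 * φ (z' 3) ^ s 2) ^ m 1 = 1 at e3
      rw [h0, h1, h2, h3, map_one, map_neg, map_one] at e3
      have e4 := congrArg (fun z : ℂ => Real.log ‖z‖) e3
      simp only [norm_mul, norm_zpow, norm_neg, norm_one, one_zpow, one_mul, Real.log_one] at e4
      rw [show ((a0 : ℚ) : ℂ) = ((a0 : ℝ) : ℂ) by norm_cast,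
        show ((a1 : ℚ) : ℂ) = ((a1 : ℝ) : ℂ) by norm_cast,
        show ((r0 : ℚ) : ℂ) = ((r0 : ℝ) : ℂ) by norm_cast,
        show ((r1 : ℚ) : ℂ) = ((r1 : ℝ) : ℂ) by norm_cast] at e4
      simp only [Complex.norm_real, Real.norm_eq_abs, abs_of_pos ha0R, abs_of_pos ha1R,
        abs_of_pos hr0R, abs_of_pos hr1R] at e4
      rw [Real.log_mul (by positivity) (by positivity), Real.log_zpow, Real.log_zpow,
        Real.log_mul (by positivity) (by positivity), Real.log_mul (by positivity) (by positivity),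
        Real.log_zpow, Real.log_zpow, Real.log_zpow, Real.log_zpow] at e4
      exact e4

end Pool.Agent.L0h53.NP
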