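import Mathlib
import Pool.Agent.L0h53.NP.Base
import Pool.Agent.L0h53.NP.Rel
import Pool.Agent.L0h53.NP.PiCore
import Pool.Agent.L0h53.NP.ObsR

set_option autoImplicit false

/-! The configuration `(a_1, r_1), ..., (a_k, r_k)` in `G_m^2`. -/

namespace Pool.Agent.L0h53.NP

open Finset Module Pool.Agent.H301R2.TR Pool.Agent.L0h39.QA

/-- the choice of the parameter, with an upper bound -/
theorem choose_nB (a k : ℕ) (ha : 1 ≤ a) (κ' : ℝ) (hκ' : (k : ℝ) / a ≤ κ') (C1 : ℝ)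
    (hC1 : 0 < C1) (n0 : ℕ) (K : ℝ) (hK : 0 ≤ K) :
    ∃ C : ℝ, 0 < C ∧ ∀ H : ℝ, 3 ≤ H → ∃ n : ℕ, n0 ≤ n ∧ 1 ≤ n ∧
      C1 * (K * Real.log H) ≤ (n : ℝ) ^ a ∧ (n : ℝ) ^ k ≤ C * Real.log H ^ κ' ∧
      Real.exp (-(C * Real.log H ^ κ')) ≤ (1 / 4) ^ (n ^ k) := by
  obtain ⟨C, hC, h⟩ := choose_nU a k ha κ' hκ' C1 hC1 n0 K hK
  refine ⟨C, hC, fun H hH => ?_⟩
  obtain ⟨n, h1, h2, h3, h4⟩ := h H hH
  refine ⟨n, h1, h2, h3, ?_, h4⟩
  have h5 : ((1 : ℝ) / 4) ^ (n ^ k) = Real.exp (-(Real.log 4 * ((n ^ k : ℕ) : ℝ))) := by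
    rw [← Real.rpow_natCast, Real.rpow_def_of_pos (by norm_num)]
    congr 1
    rw [one_div, Real.log_inv]; ring
  rw [h5, Real.exp_le_exp] at h4
  have h6 : 1 ≤ Real.log 4 := by
    rw [Real.le_log_iff_exp_le (by norm_num)]
    have := Real.exp_one_lt_d9
    linarith
  have h7 : (0 : ℝ) ≤ ((n ^ k : ℕ) : ℝ) := Nat.cast_nonneg _
  have h8 : ((n ^ k : ℕ) : ℝ) = (n : ℝ) ^ k := by push_cast; rfl
  rw [h8] at h4 h7
  nlinarith

/-- the parameters of the method -/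
theorem choose_par (k : ℕ) (hk : 3 ≤ k) (κ' : ℝ) (h : (2 * k : ℝ) / (k - 2) < κ') :
    ∃ a σ : ℕ, 1 ≤ a ∧ 1 ≤ σ ∧ 2 * a + 3 ≤ (k - 2) * σ ∧ ((2 * σ + 2 * a + 1 : ℕ) : ℝ) / a ≤ κ' := by
  obtain ⟨m, rfl⟩ : ∃ m, k = m + 2 := ⟨k - 2, by omega⟩
  have hm : 1 ≤ m := by omega
  have hmR : (1 : ℝ) ≤ m := by exact_mod_cast hm
  have e : ((m + 2 : ℕ) : ℝ) - 2 = m := by push_cast; ring
  rw [e, div_lt_iff₀ (by linarith)] at h
  push_cast at h
  -- `m κ' - 2 (m + 2) > 0`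
  obtain ⟨t, ht⟩ := exists_nat_gt (7 / (κ' * m - 2 * (m + 2)))
  have h1 : 0 < κ' * m - 2 * (m + 2) := by linarith
  rw [div_lt_iff₀ h1] at ht
  refine ⟨m * (t + 1), 2 * (t + 1) + 3, by nlinarith, by omega, ?_, ?_⟩
  · rw [Nat.add_sub_cancel]
    nlinarith
  · have h2 : (0 : ℝ) < ((m * (t + 1) : ℕ) : ℝ) := by
      have : 0 < m * (t + 1) := by positivity
      exact_mod_cast this
    rw [div_le_iff₀ h2]
    push_cast
    nlinarith

/-- the rational field: integrality and conjugates -/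
theorem rat_intD {q : ℚ} {d : ℕ} (h : q.den ∣ d) : IntD (K := ℚ) d 1 q := by
  unfold IntD
  obtain ⟨c, rfl⟩ := h
  have : (((q.den * c : ℕ) : ℚ)) ^ 1 * q = ((c * q.num : ℤ) : ℚ) := by
    rw [pow_one]
    push_cast
    have h1 := Rat.den_mul_eq_num q
    calc (q.den : ℚ) * c * q = c * ((q.den : ℚ) * q) := by ring
      _ = c * q.num := by rw [h1]
  rw [this]
  exact isIntegral_algebraMap (R := ℤ) (A := ℚ) (x := c * q.num)

theorem norm_ratCast (q : ℚ) (hq : 0 < q) : ‖(q : ℂ)‖ = (q : ℝ) := by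
  have hq' : (0 : ℝ) < q := by exact_mod_cast hq
  rw [show ((q : ℚ) : ℂ) = ((q : ℝ) : ℂ) by norm_cast, Complex.norm_real, Real.norm_eq_abs,
    abs_of_pos hq']

theorem le_of_ht {H : ℝ} {q : ℚ} (h : HtLe H q) : (q : ℝ) ≤ H := by
  obtain ⟨e1, e2⟩ := h
  have hq1 : (q : ℝ) = (q.num : ℝ) / (q.den : ℝ) := by exact_mod_cast (Rat.num_div_den q).symm
  have hdd : (1 : ℝ) ≤ (q.den : ℝ) := by exact_mod_cast q.pos
  have hH : 0 ≤ H := (abs_nonneg _).trans e1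
  rw [hq1, div_le_iff₀ (by linarith)]
  have := le_abs_self (q.num : ℝ)
  nlinarith

theorem log_le_of_ht' {H : ℝ} {q : ℚ} (hq : 0 < q) (h : HtLe H q) :
    |Real.log q| ≤ Real.log H := by
  obtain ⟨e1, e2⟩ := h
  have hnum : 0 < q.num := Rat.num_pos.mpr hq
  have hq1 : (q : ℝ) = (q.num : ℝ) / (q.den : ℝ) := by exact_mod_cast (Rat.num_div_den q).symm
  have hn : (1 : ℝ) ≤ (q.num : ℝ) := by exact_mod_cast hnum
  have hdd : (1 : ℝ) ≤ (q.den : ℝ) := by exact_mod_cast q.pos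
  rw [abs_of_pos (by linarith)] at e1
  rw [hq1, Real.log_div (by linarith) (by linarith), abs_le]
  have l1 := Real.log_nonneg hn
  have l2 := Real.log_nonneg hdd
  have l3 := Real.log_le_log (by linarith) e1
  have l4 := Real.log_le_log (by linarith) e2
  constructor <;> linarith

/-- **The core theorem for `k` bases.** -/
theorem coreG (β : ℝ) (hβ : 0 ≤ β) (k : ℕ) (hk : 3 ≤ k) (κ' : ℝ)
    (hκ' : (2 * k : ℝ) / (k - 2) < κ') : ∃ C C3 : ℝ, 0 < C ∧ 0 < C3 ∧ ∀ H : ℝ, 3 ≤ H →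
    ∀ a r : Fin k → ℚ, (∀ i, 0 < a i) → (∀ i, 0 < r i) → (∀ i, HtLe H (a i)) →
    (∀ i, HtLe H (r i)) →
    (∀ i, |Real.exp (β * Real.log (a i)) - r i| ≤ Real.exp (-(C * Real.log H ^ κ'))) →
    ∃ (N : ℕ) (s : Fin k → ℤ) (m0 m1 : ℤ), s ≠ 0 ∧ (∀ p, |s p| ≤ N) ∧
      (N : ℝ) * Real.log H ≤ C3 * Real.log H ^ κ' ∧ (m0 ≠ 0 ∨ m1 ≠ 0) ∧
      (m0 : ℝ) * ∑ p, (s p : ℝ) * Real.log (a p) + (m1 : ℝ) * ∑ p, (s p : ℝ) * Real.log (r p) = 0 := by
  obtain ⟨A, σ, hA1, hσ1, hpar, hrat⟩ := choose_par k hk κ' hκ'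
  obtain ⟨C1, hC1, n0, hmain⟩ := obstructionR (w := 0) (b := 2) (l := k) (r := 1)
    (fun i _ => i.elim0) (2 * σ + A + 1) (σ + A + 1) σ
    (2 * σ + 2 * A) A 1 ((1 + β) ^ 2) (by positivity) (by norm_num) (by omega) (by ring) (by ring) hA1
    (by ring_nf; omega)
  have hkR : (0 : ℝ) < k := by
    have : 0 < k := by omega
    exact_mod_cast this
  have hk2 : (1 : ℝ) ≤ 2 * k := by
    have : 1 ≤ 2 * k := by omega
    exact_mod_cast this
  obtain ⟨C, hC, hCn⟩ := choose_nB A (2 * σ + 2 * A + 1) hA1 κ' hrat C1 hC1 n0 (2 * k) (by positivity)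
  refine ⟨C, C / (C1 * (2 * k)), hC, by positivity, ?_⟩
  intro H hH a r hap hrp haH hrH happ
  obtain ⟨n, hn0, hn1, hnΛ, hnup, hnε⟩ := hCn H hH
  have hn1R : (1 : ℝ) ≤ n := by exact_mod_cast hn1
  have hlog : 1 ≤ Real.log H := by
    rw [Real.le_log_iff_exp_le (by linarith)]
    have := Real.exp_one_lt_d9
    linarith
  obtain ⟨L, hL⟩ : ∃ L, L = Real.log H := ⟨_, rfl⟩
  rw [← hL] at hlog hnΛ hnε happ hnup
  have hexpΛ : Real.exp (2 * k * L) = H ^ (2 * k) := by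
    rw [show (2 * (k : ℝ)) * L = ((2 * k : ℕ) : ℝ) * L by push_cast; ring, Real.exp_nat_mul, hL,
      Real.exp_log (by linarith)]
  obtain ⟨S, hS⟩ : ∃ S, S = Real.sqrt L := ⟨_, rfl⟩
  have hS2 : S ^ 2 = L := by rw [hS]; exact Real.sq_sqrt (by linarith)
  have hS0 : 0 ≤ S := by rw [hS]; exact Real.sqrt_nonneg _
  have hS1 : 1 ≤ S := by nlinarith
  have hSne : (S : ℂ) ≠ 0 := by
    have : S ≠ 0 := by linarith
    exact_mod_cast this
  have hapR : ∀ p, (0 : ℝ) < a p := fun p => by exact_mod_cast hap p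
  have hrpR : ∀ p, (0 : ℝ) < r p := fun p => by exact_mod_cast hrp p
  let φ : ℚ →ₐ[ℚ] ℂ := Algebra.ofId ℚ ℂ
  let d : ℕ := (∏ p, (a p).den) * ∏ p, (r p).den
  let χ : Fin 2 → Fin k → ℚ := ![a, r]
  let x : Fin 1 → Fin 2 → ℂ := fun _ => ![(S : ℂ), (S : ℂ) * (β : ℂ)]
  let y : Fin 1 → Fin k → ℂ := fun _ p => (Real.log (a p) : ℂ) / (S : ℂ)
  let T : Fin 2 → Fin k → ℂ := ![fun p => (a p : ℂ),
    fun p => ((Real.exp (β * Real.log (a p)) : ℝ) : ℂ)]
  have hsum : ∀ j p, Complex.exp (∑ ρ, x ρ j * y ρ p + ∑ i : Fin 0, (((i.elim0 : ℤ)) : ℂ) *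
      (i.elim0 : ℂ)) = T j p := by
    intro j p
    fin_cases j
    · simp only [Finset.univ_eq_empty, Finset.sum_empty, add_zero, Finset.univ_unique,
        Finset.sum_singleton]
      change Complex.exp ((S : ℂ) * ((Real.log (a p) : ℂ) / (S : ℂ))) = (a p : ℂ)
      rw [mul_div_cancel₀ _ hSne, ← Complex.ofReal_exp, Real.exp_log (hapR p)]
      norm_cast
    · simp only [Finset.univ_eq_empty, Finset.sum_empty, add_zero, Finset.univ_unique,
        Finset.sum_singleton]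
      change Complex.exp ((S : ℂ) * (β : ℂ) * ((Real.log (a p) : ℂ) / (S : ℂ))) =
        ((Real.exp (β * Real.log (a p)) : ℝ) : ℂ)
      rw [show (S : ℂ) * (β : ℂ) * ((Real.log (a p) : ℂ) / (S : ℂ)) =
        (β : ℂ) * (Real.log (a p) : ℂ) by field_simp]
      push_cast
      rfl
  have hap1 : ∀ t : ℝ, |t| ≤ Real.exp (-(C * L ^ κ')) → |t| ≤ 1 := by
    intro t ht
    refine ht.trans ?_
    rw [Real.exp_le_one_iff]
    have : 0 ≤ L ^ κ' := Real.rpow_nonneg (by linarith) _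
    nlinarith
  have hRT : ∀ j p, ‖T j p‖ ≤ H + 1 := by
    intro j p
    fin_cases j
    · change ‖((a p : ℚ) : ℂ)‖ ≤ H + 1
      rw [norm_ratCast _ (hap p)]
      have := le_of_ht (haH p)
      linarith
    · change ‖((Real.exp (β * Real.log (a p)) : ℝ) : ℂ)‖ ≤ H + 1
      rw [Complex.norm_real, Real.norm_eq_abs, abs_of_pos (Real.exp_pos _)]
      have e1 := (abs_le.mp (hap1 _ (happ p))).2
      have := le_of_ht (hrH p)
      linarith
  have hβS : 1 ≤ (1 + β) * S := by nlinarith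
  have hx : ∀ ρ j, ‖x ρ j‖ ≤ (1 + β) * S := by
    intro ρ j
    fin_cases j
    · change ‖(S : ℂ)‖ ≤ (1 + β) * S
      rw [Complex.norm_real, Real.norm_eq_abs, abs_of_nonneg hS0]
      nlinarith
    · change ‖(S : ℂ) * (β : ℂ)‖ ≤ (1 + β) * S
      rw [norm_mul, Complex.norm_real, Complex.norm_real, Real.norm_eq_abs, Real.norm_eq_abs,
        abs_of_nonneg hS0, abs_of_nonneg hβ]
      nlinarith
  have hy : ∀ ρ p, ‖y ρ p‖ ≤ (1 + β) * S := by
    intro ρ p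
    change ‖(Real.log (a p) : ℂ) / (S : ℂ)‖ ≤ (1 + β) * S
    rw [norm_div, Complex.norm_real, Complex.norm_real, Real.norm_eq_abs, Real.norm_eq_abs,
      abs_of_nonneg hS0, div_le_iff₀ (by linarith)]
    have := log_le_of_ht' (hap p) (haH p)
    rw [← hL] at this
    have e1 : L ≤ (1 + β) * S * S := by
      have : (1 + β) * S * S = L + β * L := by rw [← hS2]; ring
      rw [this]; nlinarith
    linarith
  have hχ0 : ∀ j p, χ j p ≠ 0 := by
    intro j p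
    fin_cases j
    · exact (hap p).ne'
    · exact (hrp p).ne'
  have hden1 : ∀ q : Fin k → ℚ, (∀ i, HtLe H (q i)) → ((∏ p, (q p).den : ℕ) : ℝ) ≤ H ^ k := by
    intro q hq
    push_cast
    refine (Finset.prod_le_prod (fun i _ => by positivity) (fun i _ => (hq i).2)).trans ?_
    simp
  have hd0 : 0 < d := Nat.mul_pos (Finset.prod_pos fun p _ => (a p).pos)
    (Finset.prod_pos fun p _ => (r p).pos)
  have hdH : (d : ℝ) ≤ Real.exp (2 * k * L) := by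
    rw [hexpΛ]
    change (((∏ p, (a p).den) * ∏ p, (r p).den : ℕ) : ℝ) ≤ H ^ (2 * k)
    rw [Nat.cast_mul, two_mul, pow_add]
    exact mul_le_mul (hden1 a haH) (hden1 r hrH) (by positivity) (by positivity)
  have hH4 : H + 1 ≤ Real.exp (2 * k * L) := by
    rw [hexpΛ]
    calc H + 1 ≤ H ^ 2 := by nlinarith
      _ ≤ H ^ (2 * k) := pow_le_pow_right₀ (by linarith) (by omega)
  have hCx : ((1 + β) * S) ^ 2 ≤ (1 + β) ^ 2 * (2 * k * L) := by
    rw [mul_pow, hS2]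
    apply mul_le_mul_of_nonneg_left _ (by positivity)
    nlinarith
  have hφ : ∀ q : ℚ, φ q = (q : ℂ) := fun q => eq_ratCast φ q
  have hTε : ∀ j p, ‖((χ j p : ℚ) : ℂ) - T j p‖ ≤ (1 / 4) ^ (n ^ (2 * σ + 2 * A + 1)) := by
    intro j p
    fin_cases j
    · change ‖((a p : ℚ) : ℂ) - (a p : ℂ)‖ ≤ _
      rw [sub_self, norm_zero]; positivity
    · change ‖((r p : ℚ) : ℂ) - ((Real.exp (β * Real.log (a p)) : ℝ) : ℂ)‖ ≤ _
      rw [norm_sub_rev, show ((r p : ℚ) : ℂ) = ((r p : ℝ) : ℂ) by norm_cast,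
        ← Complex.ofReal_sub, Complex.norm_real, Real.norm_eq_abs]
      exact (happ p).trans hnε
  obtain ⟨Af, Rm, W0, G0, q1, q2, q3, l', q4, -, q5⟩ := hmain n hn0 ℚ φ (fun i _ => i.elim0) χ x y
    (fun i _ => i.elim0) (2 * k * L) (H + 1)
    ((1 / 4) ^ (n ^ (2 * σ + 2 * A + 1))) ((1 + β) * S) d hβS hCx hx hy
    (fun i p => i.elim0)
    (fun i j => i.elim0)
    hnΛ (by nlinarith) (by linarith) hH4 hd0
    hdH (by simp) (by positivity)
    (by rw [show 2 * σ + A + 1 + A = 2 * σ + 2 * A + 1 by ring])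
    (fun i p => i.elim0)
    (fun j p => by
      fin_cases j
      · exact rat_intD (Dvd.dvd.mul_right (Finset.dvd_prod_of_mem _ (Finset.mem_univ p)) _)
      · exact rat_intD (Dvd.dvd.mul_left
          (Finset.dvd_prod_of_mem (fun p => (r p).den) (Finset.mem_univ p)) _))
    (fun τ' i p => i.elim0)
    (fun τ' j p => by
      rw [eq_ratCast τ' (χ j p)]
      fin_cases j
      · change ‖((a p : ℚ) : ℂ)‖ ≤ H + 1
        rw [norm_ratCast _ (hap p)]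
        have := le_of_ht (haH p)
        linarith
      · change ‖((r p : ℚ) : ℂ)‖ ≤ H + 1
        rw [norm_ratCast _ (hrp p)]
        have := le_of_ht (hrH p)
        linarith)
    (fun i p => i.elim0)
    (fun j p => by
      have h1 := hsum j p
      simp only [Finset.univ_eq_empty, Finset.sum_empty, add_zero] at h1 ⊢
      rw [h1]; exact hRT j p)
    (fun i p => i.elim0)
    (fun j p => by
      have h1 := hsum j p
      simp only [Finset.univ_eq_empty, Finset.sum_empty, add_zero] at h1 ⊢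
      rw [h1]
      have h2 := hTε j p
      rw [← hφ] at h2
      exact h2)
    hχ0
  have hAf : Af = ⊥ := Subsingleton.elim _ _
  have hAf0 : finrank ℂ Af = 0 := by rw [hAf, finrank_bot]
  have hRm : Rm ≠ ⊥ := fun h => q1 ⟨hAf, h⟩
  have hR2 : finrank ℤ Rm ≤ 2 := rank_le Rm
  -- a small element of the obstruction subgroup
  obtain ⟨s, hsG, hsN, hs0⟩ : ∃ s ∈ G0, (∀ q, |s q| ≤ (n : ℤ) ^ σ) ∧ s ≠ 0 := by
    by_contra hcon
    push Not at hcon
    have h1 := q5 Finset.univ (fun s hs _ hs' => hcon s hs hs')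
    rw [Finset.card_univ, Fintype.card_fin, hAf0, zero_mul, zero_add] at h1
    have h2 : finrank ℤ Rm * (σ + A + 1) ≤ 2 * (σ + A + 1) := Nat.mul_le_mul_right _ hR2
    have h3 : k * σ ≤ 2 * (σ + A + 1) := by
      calc k * σ ≤ l' * (2 * σ + 2 * A) + k * σ := Nat.le_add_left _ _
        _ ≤ _ := h1
        _ ≤ _ := h2
    obtain ⟨m, rfl⟩ : ∃ m, k = m + 2 := ⟨k - 2, by omega⟩
    rw [Nat.add_sub_cancel] at hpar
    have h4 : (m + 2) * σ = m * σ + 2 * σ := by ring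
    omega
  obtain ⟨m, hmR, hm0⟩ := exists_ne hRm
  refine ⟨n ^ σ, s, m 0, m 1, hs0, fun p => by push_cast; exact hsN p, ?_, ?_, ?_⟩
  · rw [← hL, div_mul_eq_mul_div, le_div_iff₀ (by positivity)]
    push_cast
    calc (n : ℝ) ^ σ * L * (C1 * (2 * k)) = (n : ℝ) ^ σ * (C1 * (2 * k * L)) := by ring
      _ ≤ (n : ℝ) ^ σ * (n : ℝ) ^ A := mul_le_mul_of_nonneg_left hnΛ (by positivity)
      _ = (n : ℝ) ^ (σ + A) := by rw [pow_add]
      _ ≤ (n : ℝ) ^ (2 * σ + 2 * A + 1) := pow_le_pow_right₀ hn1R (by omega)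
      _ ≤ _ := hnup
  · by_contra hc
    push Not at hc
    apply hm0
    funext i
    fin_cases i
    · exact hc.1
    · exact hc.2
  · obtain ⟨-, e2⟩ := (q3 s).mp hsG
    have e3 := e2 m hmR
    rw [Fin.prod_univ_two] at e3
    have e3' : (∏ p, (φ (a p)) ^ s p) ^ m 0 * (∏ p, (φ (r p)) ^ s p) ^ m 1 = 1 := e3
    simp only [hφ] at e3'
    have e4 := congrArg (fun z : ℂ => Real.log ‖z‖) e3'
    have e5 : ∏ p, (a p : ℝ) ^ s p ≠ 0 :=
      Finset.prod_ne_zero_iff.mpr fun p _ => zpow_ne_zero _ (hapR p).ne'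
    have e6 : ∏ p, (r p : ℝ) ^ s p ≠ 0 :=
      Finset.prod_ne_zero_iff.mpr fun p _ => zpow_ne_zero _ (hrpR p).ne'
    simp only [norm_mul, norm_zpow, norm_prod, norm_one, Real.log_one, norm_ratCast _ (hap _),
      norm_ratCast _ (hrp _)] at e4
    rw [Real.log_mul (zpow_ne_zero _ e5) (zpow_ne_zero _ e6), Real.log_zpow, Real.log_zpow,
      Real.log_prod (fun p _ => zpow_ne_zero _ (hapR p).ne'),
      Real.log_prod (fun p _ => zpow_ne_zero _ (hrpR p).ne')] at e4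
    simp only [Real.log_zpow] at e4
    exact e4

end Pool.Agent.L0h53.NP
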