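import Mathlib
import Pool.Agent.H335R2.Obs.Coord
import Pool.Agent.L0h53.NP.Rel

set_option autoImplicit false

/-! The number of integers in a multiplicative group of given rank. -/

namespace Pool.Agent.L0h53.NP

open Finset Module

/-- If any `k` elements of a set of integers `2 ≤ n ≤ H` are multiplicatively dependent then the set
has at most `(1 + log H / log 2) ^ (k - 1)` elements. -/
theorem count_le (k : ℕ) (hk : 1 ≤ k) (S : Set ℕ) {H : ℝ} (hH : 3 ≤ H)
    (hS : ∀ n ∈ S, 2 ≤ n ∧ (n : ℝ) ≤ H)
    (hdep : ∀ a : Fin k → ℕ, (∀ i, a i ∈ S) → ∃ s : Fin k → ℤ, s ≠ 0 ∧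
      ∑ i, (s i : ℝ) * Real.log ((a i : ℚ) : ℝ) = 0) :
    (S.ncard : ℝ) ≤ (1 + Real.log H / Real.log 2) ^ (k - 1) := by
  classical
  set N := ⌊H⌋₊ with hN
  have hlog2 : 0 < Real.log 2 := Real.log_pos (by norm_num)
  have hlogH : 0 ≤ Real.log H := Real.log_nonneg (by linarith)
  let vec : ℕ → (Fin (N + 1) → ℚ) := fun n i => if (i : ℕ).Prime then (padicValNat i n : ℚ) else 0
  let W : Submodule ℚ (Fin (N + 1) → ℚ) := Submodule.span ℚ (vec '' S)
  -- the rank
  have hrank : finrank ℚ W ≤ k - 1 := by
    by_contra hcon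
    obtain ⟨b, hbS, hbW, hli⟩ := exists_linearIndependent ℚ (vec '' S)
    have hfin : Finite b := hli.finite
    have hfint : Fintype b := Fintype.ofFinite b
    have hcard : Fintype.card b = finrank ℚ W := by
      have h1 : finrank ℚ (Submodule.span ℚ b) = Fintype.card b := by
        have := finrank_span_eq_card hli
        rwa [Subtype.range_coe] at this
      rw [← h1, hbW]
    have hkb : k ≤ Fintype.card b := by omega
    let e : Fin k ↪ b := (Fin.castLEEmb hkb).trans (Fintype.equivFin b).symm.toEmbedding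
    have hli2 : LinearIndependent ℚ (fun i : Fin k => ((e i : b) : Fin (N + 1) → ℚ)) :=
      hli.comp e e.injective
    have hmem : ∀ i : Fin k, ∃ n ∈ S, vec n = ((e i : b) : Fin (N + 1) → ℚ) := fun i =>
      hbS (e i).2
    choose a haS ha using hmem
    obtain ⟨s, hs0, hs⟩ := hdep a haS
    have hpos : ∀ i, (0 : ℚ) < (a i : ℚ) := by
      intro i
      have := (hS _ (haS i)).1
      have : 0 < a i := by omega
      exact_mod_cast this
    have hval := (log_zero_iff Finset.univ (fun i => (a i : ℚ)) hpos s).mp hs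
    apply hs0
    have hz : ∑ i, (s i : ℚ) • ((e i : b) : Fin (N + 1) → ℚ) = 0 := by
      funext j
      rw [Finset.sum_apply]
      simp only [Pi.smul_apply, Pi.zero_apply, ← ha, smul_eq_mul]
      by_cases hj : (j : ℕ).Prime
      · have h1 := hval j hj
        have h2 : ∑ i, (s i : ℚ) * (padicValNat (j : ℕ) (a i) : ℚ) = 0 := by
          have h3 : ∑ i, s i * (padicValNat (j : ℕ) (a i) : ℤ) = 0 := by
            rw [← h1]
            exact Finset.sum_congr rfl fun i _ => by rw [padicValRat.of_nat]
          have h4 := congrArg (fun z : ℤ => (z : ℚ)) h3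
          simp only [Int.cast_sum, Int.cast_mul, Int.cast_natCast, Int.cast_zero] at h4
          exact h4
        simpa [vec, hj] using h2
      · simp [vec, hj]
    have h4 := Fintype.linearIndependent_iff.mp hli2 (fun i => (s i : ℚ)) hz
    funext i
    have := h4 i
    exact_mod_cast this
  -- coordinates
  obtain ⟨E, hE1, hE2⟩ := Pool.Agent.H335R2.Obs.coord W
  set M := ⌊Real.log H / Real.log 2⌋₊ with hM
  have hle : ∀ n ∈ S, ∀ p : ℕ, p.Prime → padicValNat p n ≤ M := by
    intro n hn p hp
    obtain ⟨h2, hnH⟩ := hS n hn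
    have h3 : p ^ padicValNat p n ≤ n := Nat.le_of_dvd (by omega) pow_padicValNat_dvd
    have h4 : (2 : ℝ) ^ padicValNat p n ≤ H := by
      calc (2 : ℝ) ^ padicValNat p n ≤ (p : ℝ) ^ padicValNat p n := by
            apply pow_le_pow_left₀ (by norm_num)
            exact_mod_cast hp.two_le
        _ = ((p ^ padicValNat p n : ℕ) : ℝ) := by push_cast; ring
        _ ≤ n := by exact_mod_cast h3
        _ ≤ H := hnH
    rw [hM]
    apply Nat.le_floor
    rw [le_div_iff₀ hlog2]
    have h5 := Real.log_le_log (by positivity) h4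
    rwa [Real.log_pow] at h5
  let f : ℕ → ({j // j ∈ univ \ E} → Fin (M + 1)) := fun n j =>
    if h : (j.1 : ℕ).Prime ∧ padicValNat (j.1 : ℕ) n ≤ M then
      ⟨padicValNat (j.1 : ℕ) n, by omega⟩ else 0
  have hinj : Set.InjOn f S := by
    intro n hn n' hn' hff
    have h1 : vec n - vec n' ∈ W := W.sub_mem (Submodule.subset_span ⟨n, hn, rfl⟩)
      (Submodule.subset_span ⟨n', hn', rfl⟩)
    have h2 : vec n - vec n' = 0 := by
      refine hE2 _ h1 fun j hj => ?_
      have hj' : j ∈ univ \ E := by simp [hj]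
      have h3 := congrFun hff ⟨j, hj'⟩
      rw [Pi.sub_apply, sub_eq_zero]
      by_cases hp : (j : ℕ).Prime
      · simp only [f] at h3
        rw [dif_pos ⟨hp, hle n hn _ hp⟩, dif_pos ⟨hp, hle n' hn' _ hp⟩] at h3
        have h4 : padicValNat (j : ℕ) n = padicValNat (j : ℕ) n' := congrArg Fin.val h3
        simp [vec, h4]
      · simp [vec, hp]
    obtain ⟨hn2, hnH⟩ := hS n hn
    obtain ⟨hn2', hnH'⟩ := hS n' hn'
    have hnN : n ≤ N := Nat.le_floor hnH
    have hnN' : n' ≤ N := Nat.le_floor hnH'
    apply Nat.eq_of_factorization_eq (by omega) (by omega)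
    intro p
    by_cases hp : p.Prime
    · rcases Nat.lt_or_ge N p with hNp | hNp
      · rw [Nat.factorization_eq_zero_of_lt (by omega), Nat.factorization_eq_zero_of_lt (by omega)]
      · have h5 := congrFun h2 ⟨p, by omega⟩
        rw [Pi.sub_apply, Pi.zero_apply, sub_eq_zero] at h5
        simp only [vec, hp, if_true] at h5
        rw [Nat.factorization_def _ hp, Nat.factorization_def _ hp]
        exact_mod_cast h5
    · rw [Nat.factorization_eq_zero_of_not_prime _ hp, Nat.factorization_eq_zero_of_not_prime _ hp]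
  have h1 : S.ncard ≤ (M + 1) ^ (k - 1) := by
    calc S.ncard = (f '' S).ncard := hinj.ncard_image.symm
      _ ≤ (Set.univ : Set ({j // j ∈ univ \ E} → Fin (M + 1))).ncard :=
          Set.ncard_le_ncard (Set.subset_univ _) Set.finite_univ
      _ = (M + 1) ^ (univ \ E).card := by
          rw [Set.ncard_univ, Nat.card_eq_fintype_card, Fintype.card_fun, Fintype.card_fin,
            Fintype.card_coe]
      _ ≤ (M + 1) ^ (k - 1) := by
          rw [hE1]
          exact Nat.pow_le_pow_right (by omega) hrank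
  have h2 : (M : ℝ) ≤ Real.log H / Real.log 2 := Nat.floor_le (by positivity)
  calc (S.ncard : ℝ) ≤ (((M + 1) ^ (k - 1) : ℕ) : ℝ) := by exact_mod_cast h1
    _ = ((M : ℝ) + 1) ^ (k - 1) := by push_cast; ring
    _ ≤ (1 + Real.log H / Real.log 2) ^ (k - 1) :=
        pow_le_pow_left₀ (by positivity) (by linarith) _

end Pool.Agent.L0h53.NP
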