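import Mathlib
import Pool.Agent.L0h53.NP.PiCore
import Pool.Agent.L0h53.NP.Rel
import Pool.Agent.Y949.PiM

set_option autoImplicit false

/-! Numbers `a ^ π` close to rational numbers: the bases are multiplicatively dependent. -/

namespace Pool.Agent.L0h53.NP

open Finset

/-- approximations are positive and give approximations to the logarithms -/
theorem log_approx {C κ' L : ℝ} {θ : ℝ} (hθ0 : 0 ≤ θ) (hθ : θ ≤ 4) (hL : 1 ≤ L) (hκ' : 1 ≤ κ')
    (hC : 5 ≤ C) {a r : ℝ} (ha : |Real.log a| ≤ L)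
    (h : |Real.exp (θ * Real.log a) - r| ≤ Real.exp (-(C * L ^ κ'))) :
    0 < r ∧ |θ * Real.log a - Real.log r| ≤ Real.exp (5 * L - C * L ^ κ') := by
  have hLκ : L ≤ L ^ κ' := by
    calc L = L ^ (1 : ℝ) := (Real.rpow_one L).symm
      _ ≤ L ^ κ' := Real.rpow_le_rpow_of_exponent_le hL hκ'
  have h1 : -(4 * L) ≤ θ * Real.log a := by
    have := abs_le.mp ha
    nlinarith
  have h2 : Real.exp (-(4 * L)) ≤ Real.exp (θ * Real.log a) := Real.exp_le_exp.mpr h1
  have h3 : Real.exp (-(C * L ^ κ')) ≤ Real.exp (-1) * Real.exp (-(4 * L)) := by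
    rw [← Real.exp_add]
    apply Real.exp_le_exp.mpr
    nlinarith
  have he : Real.exp (-1) ≤ 1 / 2 := by
    rw [Real.exp_neg]
    have := Real.exp_one_gt_d9
    rw [inv_le_comm₀ (Real.exp_pos _) (by norm_num)]
    linarith
  have h5 : Real.exp (-(5 * L)) ≤ Real.exp (-1) * Real.exp (-(4 * L)) := by
    rw [← Real.exp_add]
    apply Real.exp_le_exp.mpr
    linarith
  have hpos4 := Real.exp_pos (-(4 * L))
  have hr : Real.exp (-(5 * L)) ≤ r := by
    have := (abs_le.mp h).2
    nlinarith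
  have hx : Real.exp (-(5 * L)) ≤ Real.exp (θ * Real.log a) := by
    refine le_trans ?_ h2
    apply Real.exp_le_exp.mpr
    linarith
  refine ⟨lt_of_lt_of_le (Real.exp_pos _) hr, ?_⟩
  refine (log_close (Real.exp_pos _) hx hr h).trans (le_of_eq ?_)
  rw [← Real.exp_sub]
  ring_nf

theorem log_le_of_ht {H : ℝ} (hH : 1 ≤ H) {q : ℚ} (hq : 0 < q) (h : HtLe H q) :
    |Real.log q| ≤ Real.log H := by
  obtain ⟨e1, e2⟩ := h
  have hnum : 0 < q.num := Rat.num_pos.mpr hq
  have hq1 : (q : ℝ) = (q.num : ℝ) / (q.den : ℝ) := by exact_mod_cast (Rat.num_div_den q).symm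
  have hn : (1 : ℝ) ≤ (q.num : ℝ) := by exact_mod_cast hnum
  have hdd : (1 : ℝ) ≤ (q.den : ℝ) := by exact_mod_cast q.pos
  rw [abs_of_pos (by linarith)] at e1
  rw [hq1, Real.log_div (by linarith) (by linarith), abs_le]
  have l1 := Real.log_nonneg hn
  have l2 := Real.log_nonneg hdd
  have l3 := Real.log_le_log (by linarith) e1
  have l4 := Real.log_le_log (by linarith) e2
  constructor <;> linarith

/-- **Two bases.** -/
theorem pi_pair (κ' : ℝ) (hκ' : 9 < κ') : ∃ C : ℝ, 0 < C ∧ ∀ H : ℝ, 3 ≤ H →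
    ∀ a0 a1 r0 r1 : ℚ, 0 < a0 → 0 < a1 → HtLe H a0 → HtLe H a1 → HtLe H r0 → HtLe H r1 →
    |Real.exp (Real.pi * Real.log a0) - r0| ≤ Real.exp (-(C * Real.log H ^ κ')) →
    |Real.exp (Real.pi * Real.log a1) - r1| ≤ Real.exp (-(C * Real.log H ^ κ')) →
    ∃ s1 s2 : ℤ, (s1 ≠ 0 ∨ s2 ≠ 0) ∧ (s1 : ℝ) * Real.log a0 + s2 * Real.log a1 = 0 := by
  obtain ⟨C0, hC0, hcore⟩ := corePi κ' hκ'
  obtain ⟨c, hc, hmeas⟩ := Pool.Agent.Y949.pi_measure
  refine ⟨C0 + 20 + |Real.log (128 / c)|, by positivity, ?_⟩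
  intro H hH a0 a1 r0 r1 ha0 ha1 ha0H ha1H hr0H hr1H hap0 hap1
  obtain ⟨C, hC⟩ : ∃ C, C = C0 + 20 + |Real.log (128 / c)| := ⟨_, rfl⟩
  rw [← hC] at hap0 hap1
  have hCabs : 0 ≤ |Real.log (128 / c)| := abs_nonneg _
  have hlog : 1 ≤ Real.log H := by
    rw [Real.le_log_iff_exp_le (by linarith)]
    have := Real.exp_one_lt_d9
    linarith
  obtain ⟨L, hL⟩ : ∃ L, L = Real.log H := ⟨_, rfl⟩
  rw [← hL] at hlog hap0 hap1
  have hL2 : L ^ 2 ≤ L ^ κ' := by
    rw [← Real.rpow_natCast]
    exact Real.rpow_le_rpow_of_exponent_le hlog (by push_cast; linarith)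
  have hLL : L ≤ L ^ 2 := by nlinarith
  have hLκ0 : 0 ≤ L ^ κ' := by nlinarith
  obtain ⟨hr0p, hlc0⟩ := log_approx Real.pi_pos.le Real.pi_le_four hlog (by linarith)
    (by linarith) (by rw [hL]; exact log_le_of_ht (by linarith) ha0 ha0H) hap0
  obtain ⟨hr1p, hlc1⟩ := log_approx Real.pi_pos.le Real.pi_le_four hlog (by linarith)
    (by linarith) (by rw [hL]; exact log_le_of_ht (by linarith) ha1 ha1H) hap1
  have hr0q : 0 < r0 := by exact_mod_cast hr0p
  have hr1q : 0 < r1 := by exact_mod_cast hr1p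
  by_contra hcon
  push Not at hcon
  have hind : ∀ s1 s2 : ℤ, (s1 : ℝ) * Real.log a0 + s2 * Real.log a1 = 0 → s1 = 0 ∧ s2 = 0 := by
    intro s1 s2 h
    by_contra hc
    exact hcon s1 s2 (by tauto) h
  have ha0ne : Real.log a0 ≠ 0 := by
    intro h
    have := (hind 1 0 (by rw [h]; simp)).1
    omega
  have hmono : Real.exp (-(C * L ^ κ')) ≤ Real.exp (-(C0 * L ^ κ')) := by
    apply Real.exp_le_exp.mpr
    nlinarith
  have htwo : ∀ t : ℝ, 0 ≤ t → t ≤ 2 * L → t ≤ Real.exp (2 * L) := by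
    intro t _ ht
    have := Real.add_one_le_exp (2 * L)
    linarith
  rcases hcore H hH a0 a1 r0 r1 ha0 ha1 hr0q hr1q ha0H ha1H hr0H hr1H
    (by rw [← hL]; exact hap0.trans hmono) (by rw [← hL]; exact hap1.trans hmono) hind with
    ⟨m0, m1, hm1, hrel⟩ | ⟨s1, s2, hs, hrel⟩
  · -- `log r0` is a rational multiple of `log a0`
    have ha0ne1 : a0 ≠ 1 := by
      intro h
      apply ha0ne
      rw [h]; simp
    obtain ⟨p, hp, hv⟩ := exists_val ha0 ha0ne1
    obtain ⟨v, hvdef⟩ : ∃ v, v = padicValRat p a0 := ⟨_, rfl⟩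
    obtain ⟨u, hudef⟩ : ∃ u, u = padicValRat p r0 := ⟨_, rfl⟩
    have hval := (log2_iff ha0 hr0q m0 m1).mp hrel p hp
    rw [← hvdef, ← hudef] at hval
    rw [← hvdef] at hv
    have hvle : |(v : ℝ)| ≤ 2 * L := by rw [hvdef, hL]; exact val_le ha0 ha0H p hp
    have huv : (u : ℝ) * Real.log a0 = v * Real.log r0 := by
      have hvalR : (m0 : ℝ) * v + m1 * u = 0 := by exact_mod_cast hval
      have h1 : (m1 : ℝ) * (u * Real.log a0 - v * Real.log r0) = 0 := by
        linear_combination Real.log a0 * hvalR - (v : ℝ) * hrel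
      have := (mul_eq_zero.mp h1).resolve_left (by exact_mod_cast hm1)
      linarith
    -- lower bound from the measure
    obtain ⟨q, hq⟩ : ∃ q : ℕ, q = v.natAbs := ⟨_, rfl⟩
    have hq1 : 1 ≤ q := by omega
    have hqR : (q : ℝ) = |(v : ℝ)| := by rw [hq, Nat.cast_natAbs]; push_cast; rfl
    have hq1R : (1 : ℝ) ≤ q := by exact_mod_cast hq1
    obtain ⟨w, hw⟩ : ∃ w : ℤ, |(q : ℝ) * Real.pi - w| = |(v : ℝ) * Real.pi - u| := by
      rcases abs_cases (v : ℝ) with ⟨h1, _⟩ | ⟨h1, _⟩
      · exact ⟨u, by rw [hqR, h1]⟩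
      · refine ⟨-u, ?_⟩
        rw [hqR, h1, ← abs_neg]
        congr 1
        push_cast
        ring
    have h1 := hmeas q hq1 w
    rw [hw] at h1
    have h2 : (q : ℝ) ^ (5.05 : ℝ) ≤ (2 * L) ^ 6 := by
      calc (q : ℝ) ^ (5.05 : ℝ) ≤ (q : ℝ) ^ (6 : ℝ) :=
            Real.rpow_le_rpow_of_exponent_le hq1R (by norm_num)
        _ = (q : ℝ) ^ 6 := by exact_mod_cast Real.rpow_natCast (q : ℝ) 6
        _ ≤ (2 * L) ^ 6 := pow_le_pow_left₀ (by linarith) (by rw [hqR]; exact hvle) 6
    have h3 : |(v : ℝ) * Real.pi - u| * |Real.log a0| =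
        |(v : ℝ)| * |Real.pi * Real.log a0 - Real.log r0| := by
      rw [← abs_mul, ← abs_mul]
      congr 1
      linear_combination -huv
    have h4 : Real.exp (-L) ≤ |Real.log a0| := by
      have := linform_lower (Finset.univ : Finset (Fin 1)) (fun _ => a0) (fun _ => ha0)
        (fun _ => 1) (H := H) (by linarith) (fun _ => ha0H) 1 (by simp) (by simpa using ha0ne)
      simpa [hL] using this
    have h5 : c * Real.exp (-L) ≤ (2 * L) ^ 6 * ((2 * L) * Real.exp (5 * L - C * L ^ κ')) := by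
      have hD : 0 ≤ |(v : ℝ) * Real.pi - u| := abs_nonneg _
      have h6 : c ≤ (2 * L) ^ 6 * |(v : ℝ) * Real.pi - u| :=
        h1.trans (mul_le_mul_of_nonneg_right h2 hD)
      have h7 : |(v : ℝ) * Real.pi - u| * Real.exp (-L) ≤ (2 * L) * Real.exp (5 * L - C * L ^ κ') := by
        calc |(v : ℝ) * Real.pi - u| * Real.exp (-L) ≤ |(v : ℝ) * Real.pi - u| * |Real.log a0| :=
              mul_le_mul_of_nonneg_left h4 hD
          _ = |(v : ℝ)| * |Real.pi * Real.log a0 - Real.log r0| := h3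
          _ ≤ _ := mul_le_mul hvle hlc0 (abs_nonneg _) (by linarith)
      calc c * Real.exp (-L) ≤ (2 * L) ^ 6 * |(v : ℝ) * Real.pi - u| * Real.exp (-L) :=
            mul_le_mul_of_nonneg_right h6 (Real.exp_pos _).le
        _ = (2 * L) ^ 6 * (|(v : ℝ) * Real.pi - u| * Real.exp (-L)) := by ring
        _ ≤ _ := mul_le_mul_of_nonneg_left h7 (by positivity)
    have h6 : (2 * L) ^ 6 * (2 * L) ≤ 128 * Real.exp (7 * L) := by
      have h7 : L ≤ Real.exp L := by
        have := Real.add_one_le_exp L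
        linarith
      have h8 : L ^ 7 ≤ Real.exp L ^ 7 := pow_le_pow_left₀ (by linarith) h7 7
      rw [← Real.exp_nat_mul] at h8
      push_cast at h8
      calc (2 * L) ^ 6 * (2 * L) = 128 * L ^ 7 := by ring
        _ ≤ _ := by linarith
    have h7 : c ≤ 128 * Real.exp (13 * L - C * L ^ κ') := by
      have h8 : c * Real.exp (-L) ≤ 128 * Real.exp (7 * L) * Real.exp (5 * L - C * L ^ κ') := by
        calc _ ≤ _ := h5
          _ = (2 * L) ^ 6 * (2 * L) * Real.exp (5 * L - C * L ^ κ') := by ring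
          _ ≤ _ := mul_le_mul_of_nonneg_right h6 (Real.exp_pos _).le
      have h9 := mul_le_mul_of_nonneg_right h8 (Real.exp_pos L).le
      rw [mul_assoc, ← Real.exp_add, neg_add_cancel, Real.exp_zero, mul_one, mul_assoc, mul_assoc,
        ← Real.exp_add, ← Real.exp_add] at h9
      refine h9.trans (le_of_eq ?_)
      ring_nf
    have h8 : Real.log (128 / c) ≤ |Real.log (128 / c)| := le_abs_self _
    have h9 : 13 * L - C * L ^ κ' < -|Real.log (128 / c)| := by
      have : |Real.log (128 / c)| ≤ |Real.log (128 / c)| * L ^ κ' := by nlinarith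
      rw [hC]
      nlinarith
    have h10 : 128 * Real.exp (13 * L - C * L ^ κ') < c := by
      calc 128 * Real.exp (13 * L - C * L ^ κ') < 128 * Real.exp (-Real.log (128 / c)) := by
            apply mul_lt_mul_of_pos_left _ (by norm_num)
            apply Real.exp_lt_exp.mpr
            linarith
        _ = c := by
            rw [Real.exp_neg, Real.exp_log (by positivity)]
            field_simp
    linarith
  · -- a multiplicative relation between `r0` and `r1`
    obtain ⟨t1, t2, ht, ht1, ht2, hrel2⟩ := small_rel hH hr0q hr1q hr0H hr1H hs hrel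
    rw [← hL] at ht1 ht2
    have hne : (t1 : ℝ) * Real.log a0 + t2 * Real.log a1 ≠ 0 := by
      intro h
      obtain ⟨e1, e2⟩ := hind t1 t2 h
      rcases ht with h | h
      · exact h e1
      · exact h e2
    have h1 : Real.exp (-(4 * L * L)) ≤ |(t1 : ℝ) * Real.log a0 + t2 * Real.log a1| := by
      have := linform_lower (Finset.univ : Finset (Fin 2)) ![a0, a1] (by
        intro i; fin_cases i
        · exact ha0
        · exact ha1) ![t1, t2] (H := H) (by linarith) (by
        intro i; fin_cases i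
        · exact ha0H
        · exact ha1H) (4 * L) (by
          simp only [Fin.sum_univ_two, Matrix.cons_val_zero, Matrix.cons_val_one]
          linarith) (by simpa [Fin.sum_univ_two] using hne)
      rw [← hL] at this
      simpa [Fin.sum_univ_two] using this
    have h2 : Real.pi * |(t1 : ℝ) * Real.log a0 + t2 * Real.log a1| ≤
        4 * L * Real.exp (5 * L - C * L ^ κ') := by
      have e : Real.pi * |(t1 : ℝ) * Real.log a0 + t2 * Real.log a1| =
          |(t1 : ℝ) * (Real.pi * Real.log a0 - Real.log r0) +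
            t2 * (Real.pi * Real.log a1 - Real.log r1)| := by
        rw [← abs_of_pos Real.pi_pos, ← abs_mul, abs_of_pos Real.pi_pos]
        congr 1
        linear_combination hrel2
      rw [e]
      refine (abs_add_le _ _).trans ?_
      rw [abs_mul, abs_mul]
      have e1 : |(t1 : ℝ)| * |Real.pi * Real.log a0 - Real.log r0| ≤
          2 * L * Real.exp (5 * L - C * L ^ κ') := mul_le_mul ht1 hlc0 (abs_nonneg _) (by linarith)
      have e2 : |(t2 : ℝ)| * |Real.pi * Real.log a1 - Real.log r1| ≤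
          2 * L * Real.exp (5 * L - C * L ^ κ') := mul_le_mul ht2 hlc1 (abs_nonneg _) (by linarith)
      linarith
    have h3 : Real.exp (-(4 * L * L)) ≤ 2 * Real.exp (6 * L - C * L ^ κ') := by
      have e1 : (3 : ℝ) ≤ Real.pi := Real.pi_gt_three.le
      have e2 : 0 ≤ |(t1 : ℝ) * Real.log a0 + t2 * Real.log a1| := abs_nonneg _
      have e3 : L * Real.exp (5 * L - C * L ^ κ') ≤ Real.exp (6 * L - C * L ^ κ') := by
        have : L ≤ Real.exp L := by
          have := Real.add_one_le_exp L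
          linarith
        calc L * Real.exp (5 * L - C * L ^ κ') ≤ Real.exp L * Real.exp (5 * L - C * L ^ κ') :=
              mul_le_mul_of_nonneg_right this (Real.exp_pos _).le
          _ = _ := by rw [← Real.exp_add]; ring_nf
      nlinarith
    have h4 : 2 * Real.exp (6 * L - C * L ^ κ') < Real.exp (-(4 * L * L)) := by
      have e1 : (2 : ℝ) ≤ Real.exp 1 := by
        have := Real.exp_one_gt_d9
        linarith
      calc 2 * Real.exp (6 * L - C * L ^ κ') ≤ Real.exp 1 * Real.exp (6 * L - C * L ^ κ') :=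
            mul_le_mul_of_nonneg_right e1 (Real.exp_pos _).le
        _ = Real.exp (1 + (6 * L - C * L ^ κ')) := by rw [← Real.exp_add]
        _ < Real.exp (-(4 * L * L)) := by
            apply Real.exp_lt_exp.mpr
            have e2 : 20 * L ^ κ' ≤ C * L ^ κ' := by
              apply mul_le_mul_of_nonneg_right _ hLκ0
              rw [hC]; linarith
            nlinarith
    linarith

end Pool.Agent.L0h53.NP
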