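import Mathlib
import Pool.Agent.L0h53.NP.CoreG
import Pool.Agent.L0h53.NP.PiMain
import Pool.Agent.H43R2.Cplx.EMeas

set_option autoImplicit false

/-! Numbers `a ^ β` close to rational numbers: any `k` of the bases are multiplicatively
dependent. -/

namespace Pool.Agent.L0h53.NP

open Finset

/-- **`k` bases.** -/
theorem beta_k (β : ℝ) (hβ : 0 ≤ β) (hβ4 : β ≤ 4) (c : ℝ) (hc : 0 < c)
    (hmeas : ∀ q : ℕ, 1 ≤ q → ∀ p : ℤ, c ≤ (q : ℝ) ^ 6 * |q * β - p|) (k : ℕ) (hk : 3 ≤ k) (κ' : ℝ)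
    (hκ' : (2 * k : ℝ) / (k - 2) < κ') : ∃ C : ℝ, 0 < C ∧ ∀ H : ℝ, 3 ≤ H →
    ∀ a r : Fin k → ℚ, (∀ i, 0 < a i) → (∀ i, HtLe H (a i)) → (∀ i, HtLe H (r i)) →
    (∀ i, |Real.exp (β * Real.log (a i)) - r i| ≤ Real.exp (-(C * Real.log H ^ κ'))) →
    ∃ s : Fin k → ℤ, s ≠ 0 ∧ ∑ p, (s p : ℝ) * Real.log (a p) = 0 := by
  obtain ⟨C0, C3, hC0, hC3, hcore⟩ := coreG β hβ k hk κ' hκ'
  refine ⟨C0 + 6 + 14 * k * C3 + |Real.log (128 / c)|, by positivity, ?_⟩
  intro H hH a r hap haH hrH happ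
  obtain ⟨C, hC⟩ : ∃ C, C = C0 + 6 + 14 * k * C3 + |Real.log (128 / c)| := ⟨_, rfl⟩
  rw [← hC] at happ
  have hCabs : 0 ≤ |Real.log (128 / c)| := abs_nonneg _
  have hkR : (3 : ℝ) ≤ k := by exact_mod_cast hk
  have hkC : 0 ≤ 14 * (k : ℝ) * C3 := by positivity
  have hκ2 : 2 ≤ κ' := by
    refine le_trans ?_ hκ'.le
    rw [le_div_iff₀ (by linarith)]
    linarith
  have hlog : 1 ≤ Real.log H := by
    rw [Real.le_log_iff_exp_le (by linarith)]
    have := Real.exp_one_lt_d9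
    linarith
  obtain ⟨L, hL⟩ : ∃ L, L = Real.log H := ⟨_, rfl⟩
  rw [← hL] at hlog happ
  have hLκ : L ≤ L ^ κ' := by
    calc L = L ^ (1 : ℝ) := (Real.rpow_one L).symm
      _ ≤ L ^ κ' := Real.rpow_le_rpow_of_exponent_le hlog (by linarith)
  have hLκ0 : 0 ≤ L ^ κ' := by linarith
  have hla := fun i => log_approx hβ hβ4 hlog (show 1 ≤ κ' by linarith)
    (show 5 ≤ C by linarith) (by rw [hL]; exact log_le_of_ht' (hap i) (haH i)) (happ i)
  have hrp : ∀ i, 0 < r i := fun i => by exact_mod_cast (hla i).1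
  by_contra hcon
  push Not at hcon
  have hind : ∀ s : Fin k → ℤ, ∑ p, (s p : ℝ) * Real.log (a p) = 0 → s = 0 := by
    intro s h
    by_contra hs
    exact hcon s hs h
  have hmono : Real.exp (-(C * L ^ κ')) ≤ Real.exp (-(C0 * L ^ κ')) := by
    apply Real.exp_le_exp.mpr
    nlinarith
  obtain ⟨N, s, m0, m1, hs0, hsN, hNL, hm, hrel⟩ := hcore H hH a r hap hrp haH hrH
    (fun i => by rw [← hL]; exact (happ i).trans hmono)
  rw [← hL] at hNL
  -- the products
  obtain ⟨α, hα⟩ : ∃ α : ℚ, α = ∏ p, a p ^ s p := ⟨_, rfl⟩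
  obtain ⟨ρ, hρ⟩ : ∃ ρ : ℚ, ρ = ∏ p, r p ^ s p := ⟨_, rfl⟩
  have hαp : 0 < α := by rw [hα]; exact Finset.prod_pos fun i _ => zpow_pos (hap i) _
  have hρp : 0 < ρ := by rw [hρ]; exact Finset.prod_pos fun i _ => zpow_pos (hrp i) _
  have hlα : Real.log α = ∑ p, (s p : ℝ) * Real.log (a p) := by
    rw [hα]; exact log_prod Finset.univ a hap s
  have hlρ : Real.log ρ = ∑ p, (s p : ℝ) * Real.log (r p) := by
    rw [hρ]; exact log_prod Finset.univ r hrp s
  rw [← hlα, ← hlρ] at hrel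
  have hSA : Real.log α ≠ 0 := by
    intro h
    exact hs0 (hind s (by rw [← hlα]; exact h))
  have hα1 : α ≠ 1 := by
    rintro h
    apply hSA
    rw [h]; simp
  have hm1 : m1 ≠ 0 := by
    rintro rfl
    push_cast at hrel
    rw [zero_mul, add_zero] at hrel
    have := (mul_eq_zero.mp hrel).resolve_right hSA
    rcases hm with hm | hm
    · exact hm (by exact_mod_cast this)
    · exact hm rfl
  obtain ⟨l, hl, hv⟩ := exists_val hαp hα1
  obtain ⟨v, hvdef⟩ : ∃ v, v = padicValRat l α := ⟨_, rfl⟩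
  obtain ⟨u, hudef⟩ : ∃ u, u = padicValRat l ρ := ⟨_, rfl⟩
  have hval := (log2_iff hαp hρp m0 m1).mp hrel l hl
  rw [← hvdef, ← hudef] at hval
  rw [← hvdef] at hv
  have huv : (u : ℝ) * Real.log α = v * Real.log ρ := by
    have hvalR : (m0 : ℝ) * v + m1 * u = 0 := by exact_mod_cast hval
    have h1 : (m1 : ℝ) * (u * Real.log α - v * Real.log ρ) = 0 := by
      linear_combination Real.log α * hvalR - (v : ℝ) * hrel
    have := (mul_eq_zero.mp h1).resolve_left (by exact_mod_cast hm1)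
    linarith
  -- sizes
  have hN1 : 1 ≤ N := by
    by_contra hc
    apply hs0
    funext p
    have h1 := hsN p
    have h2 : N = 0 := by omega
    rw [h2] at h1
    push_cast at h1
    exact abs_nonpos_iff.mp h1
  have hN1R : (1 : ℝ) ≤ N := by exact_mod_cast hN1
  have hsNR : ∀ p, |(s p : ℝ)| ≤ N := by
    intro p
    have := hsN p
    exact_mod_cast this
  obtain ⟨X, hX⟩ : ∃ X : ℝ, X = k * N * L := ⟨_, rfl⟩
  have hkN : (3 : ℝ) ≤ k * N := by nlinarith
  have hXkN : (k : ℝ) * N ≤ X := by rw [hX]; nlinarith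
  have hXL : L ≤ X := by rw [hX]; nlinarith
  have hX0 : 0 ≤ X := by linarith
  have hXle : X ≤ k * C3 * L ^ κ' := by
    calc X = k * (N * L) := by rw [hX]; ring
      _ ≤ k * (C3 * L ^ κ') := mul_le_mul_of_nonneg_left hNL (by linarith)
      _ = _ := by ring
  have hvle : |(v : ℝ)| ≤ 2 * X := by
    rw [hvdef, hα, val_prod Finset.univ a hap s l hl]
    push_cast
    refine (Finset.abs_sum_le_sum_abs _ _).trans ?_
    have : ∀ p ∈ (Finset.univ : Finset (Fin k)), |(s p : ℝ) * (padicValRat l (a p) : ℝ)| ≤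
        N * (2 * L) := by
      intro p _
      rw [abs_mul]
      exact mul_le_mul (hsNR p) (by rw [hL]; exact val_le (hap p) (haH p) l hl) (abs_nonneg _)
        (by linarith)
    refine (Finset.sum_le_card_nsmul _ _ _ this).trans (le_of_eq ?_)
    rw [Finset.card_univ, Fintype.card_fin, nsmul_eq_mul, hX]
    ring
  have hSlow : Real.exp (-X) ≤ |Real.log α| := by
    have h1 := linform_lower Finset.univ a hap s (H := H) (by linarith) haH (k * N) (by
      refine (Finset.sum_le_card_nsmul _ _ _ (fun p _ => hsNR p)).trans (le_of_eq ?_)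
      rw [Finset.card_univ, Fintype.card_fin, nsmul_eq_mul]) (by rw [← hlα]; exact hSA)
    rw [← hL, ← hlα, ← hX] at h1
    exact h1
  obtain ⟨η, hη⟩ : ∃ η, η = Real.exp (5 * L - C * L ^ κ') := ⟨_, rfl⟩
  have hη0 : 0 < η := by rw [hη]; exact Real.exp_pos _
  have hdiff : |β * Real.log α - Real.log ρ| ≤ k * N * η := by
    have e1 : β * Real.log α - Real.log ρ =
        ∑ p, (s p : ℝ) * (β * Real.log (a p) - Real.log (r p)) := by
      rw [hlα, hlρ, Finset.mul_sum, ← Finset.sum_sub_distrib]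
      exact Finset.sum_congr rfl fun p _ => by ring
    rw [e1]
    refine (Finset.abs_sum_le_sum_abs _ _).trans ?_
    have : ∀ p ∈ (Finset.univ : Finset (Fin k)),
        |(s p : ℝ) * (β * Real.log (a p) - Real.log (r p))| ≤ N * η := by
      intro p _
      rw [abs_mul]
      refine mul_le_mul (hsNR p) ?_ (abs_nonneg _) (by linarith)
      rw [hη]; exact (hla p).2
    refine (Finset.sum_le_card_nsmul _ _ _ this).trans (le_of_eq ?_)
    rw [Finset.card_univ, Fintype.card_fin, nsmul_eq_mul]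
    ring
  -- the measure of `β`
  obtain ⟨q, hq⟩ : ∃ q : ℕ, q = v.natAbs := ⟨_, rfl⟩
  have hq1 : 1 ≤ q := by omega
  have hqR : (q : ℝ) = |(v : ℝ)| := by rw [hq, Nat.cast_natAbs]; push_cast; rfl
  obtain ⟨w, hw⟩ : ∃ w : ℤ, |(q : ℝ) * β - w| = |(v : ℝ) * β - u| := by
    rcases abs_cases (v : ℝ) with ⟨h1, _⟩ | ⟨h1, _⟩
    · exact ⟨u, by rw [hqR, h1]⟩
    · refine ⟨-u, ?_⟩
      rw [hqR, h1, ← abs_neg]
      congr 1
      push_cast
      ring
  have h1 := hmeas q hq1 w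
  rw [hw, hqR] at h1
  have hD : 0 ≤ |(v : ℝ) * β - u| := abs_nonneg _
  have h2 : c ≤ (2 * X) ^ 6 * |(v : ℝ) * β - u| :=
    h1.trans (mul_le_mul_of_nonneg_right (pow_le_pow_left₀ (abs_nonneg _) hvle 6) hD)
  have h3 : |(v : ℝ) * β - u| * |Real.log α| ≤ 2 * X * (X * η) := by
    have e1 : |(v : ℝ) * β - u| * |Real.log α| = |(v : ℝ)| * |β * Real.log α - Real.log ρ| := by
      rw [← abs_mul, ← abs_mul]
      congr 1
      linear_combination -huv
    rw [e1]
    refine mul_le_mul hvle (hdiff.trans ?_) (abs_nonneg _) (by linarith)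
    exact mul_le_mul_of_nonneg_right hXkN hη0.le
  have h4 : c * Real.exp (-X) ≤ 128 * X ^ 8 * η := by
    calc c * Real.exp (-X) ≤ (2 * X) ^ 6 * |(v : ℝ) * β - u| * |Real.log α| :=
          mul_le_mul h2 hSlow (Real.exp_pos _).le (by positivity)
      _ = (2 * X) ^ 6 * (|(v : ℝ) * β - u| * |Real.log α|) := by ring
      _ ≤ (2 * X) ^ 6 * (2 * X * (X * η)) := mul_le_mul_of_nonneg_left h3 (by positivity)
      _ = _ := by ring
  have h5 : 128 * X ^ 8 ≤ 128 * Real.exp (8 * X) := by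
    have h7 : X ≤ Real.exp X := by
      have := Real.add_one_le_exp X
      linarith
    have h8 : X ^ 8 ≤ Real.exp X ^ 8 := pow_le_pow_left₀ hX0 h7 8
    rw [← Real.exp_nat_mul] at h8
    push_cast at h8
    linarith
  have h7 : c ≤ 128 * Real.exp (9 * X + 5 * L - C * L ^ κ') := by
    have h8 : c * Real.exp (-X) ≤ 128 * Real.exp (8 * X) * η :=
      h4.trans (mul_le_mul_of_nonneg_right h5 hη0.le)
    have h9 := mul_le_mul_of_nonneg_right h8 (Real.exp_pos X).le
    rw [mul_assoc, ← Real.exp_add, neg_add_cancel, Real.exp_zero, mul_one, hη, mul_assoc, mul_assoc,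
      ← Real.exp_add, ← Real.exp_add] at h9
    refine h9.trans (le_of_eq ?_)
    ring_nf
  have h9 : 9 * X + 5 * L - C * L ^ κ' < -|Real.log (128 / c)| := by
    have e1 : |Real.log (128 / c)| ≤ |Real.log (128 / c)| * L ^ κ' := by nlinarith
    have e3 : 0 ≤ C0 * L ^ κ' := by positivity
    have e4 : 14 * X ≤ 14 * (k * C3 * L ^ κ') := by linarith
    have e5 : C * L ^ κ' = C0 * L ^ κ' + 6 * L ^ κ' + 14 * (k * C3 * L ^ κ') +
        |Real.log (128 / c)| * L ^ κ' := by rw [hC]; ring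
    linarith
  have h10 : 128 * Real.exp (9 * X + 5 * L - C * L ^ κ') < c := by
    calc 128 * Real.exp (9 * X + 5 * L - C * L ^ κ') < 128 * Real.exp (-Real.log (128 / c)) := by
          apply mul_lt_mul_of_pos_left _ (by norm_num)
          apply Real.exp_lt_exp.mpr
          have := le_abs_self (Real.log (128 / c))
          linarith
      _ = c := by
          rw [Real.exp_neg, Real.exp_log (by positivity)]
          field_simp
  linarith

/-- measures for `π` and for `e` -/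
theorem meas_pi_e (θ : ℝ) (hθ : θ = Real.pi ∨ θ = Real.exp 1) : 0 ≤ θ ∧ θ ≤ 4 ∧
    ∃ c : ℝ, 0 < c ∧ ∀ q : ℕ, 1 ≤ q → ∀ p : ℤ, c ≤ (q : ℝ) ^ 6 * |q * θ - p| := by
  rcases hθ with rfl | rfl
  · refine ⟨Real.pi_pos.le, Real.pi_le_four, ?_⟩
    obtain ⟨c, hc, h⟩ := Pool.Agent.Y949.pi_measure
    refine ⟨c, hc, fun q hq p => (h q hq p).trans ?_⟩
    apply mul_le_mul_of_nonneg_right _ (abs_nonneg _)
    have hq1R : (1 : ℝ) ≤ q := by exact_mod_cast hq
    calc (q : ℝ) ^ (5.05 : ℝ) ≤ (q : ℝ) ^ (6 : ℝ) :=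
          Real.rpow_le_rpow_of_exponent_le hq1R (by norm_num)
      _ = (q : ℝ) ^ 6 := by exact_mod_cast Real.rpow_natCast (q : ℝ) 6
  · refine ⟨(Real.exp_pos _).le, ?_, ?_⟩
    · have := Real.exp_one_lt_d9
      linarith
    · obtain ⟨c, hc, h⟩ := Pool.Agent.H43R2.Cplx.EMeas.measure 1 one_pos
      refine ⟨c, hc, fun q hq p => (h q hq p).trans ?_⟩
      apply mul_le_mul_of_nonneg_right _ (abs_nonneg _)
      have hq1R : (1 : ℝ) ≤ q := by exact_mod_cast hq
      calc (q : ℝ) ^ ((1 : ℝ) + 1) ≤ (q : ℝ) ^ (6 : ℝ) :=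
            Real.rpow_le_rpow_of_exponent_le hq1R (by norm_num)
        _ = (q : ℝ) ^ 6 := by exact_mod_cast Real.rpow_natCast (q : ℝ) 6

end Pool.Agent.L0h53.NP
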